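import Pool.Agent.Lib.MP_56f651_co.SP.Small

open Filter Finset Matrix Real

namespace Pool.Agent.Lib.MP_56f651_co.SP

theorem stChain (hExt : StExt) (hSmall : StSmall) : StChain := by
  intro K _ _ S P U Q l Λ B z m p1 ζ η hSc hΛ hη hB hm hm' hl1 hζ hζO hT
  classical
  have key : ∀ B' : Finset (Finset S), B' ⊆ B → ∃ (ι : Type) (_ : Fintype ι) (_ : DecidableEq ι)
      (x : ℕ → ι → ℤ) (F : Finset S) (a b : ι → ℤ), Indep U x ∧
      (∀ ε : ℝ, 0 < ε → P.Data U Q x F ε) ∧ (∀ p, (∀ T ∈ B', p ∉ T) → p ∈ F) ∧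
      ∀ᶠ k in U, ∑ i, a i * x k i = m k * ∏ T ∈ B', z T k ∧ ∑ i, b i * x k i = 1 := by
    intro B' hB'
    induction B' using Finset.induction_on with
    | empty =>
      by_cases hc : ∃ c : ℤ, ∀ᶠ k in U, m k = c
      · obtain ⟨c, hc⟩ := hc
        refine ⟨Unit, inferInstance, inferInstance, fun _ _ => 1, univ, fun _ => c, fun _ => 1,
          fun a ha => ?_, fun ε hε => ?_, fun _ _ => mem_univ _, hc.mono fun k hk => by simp [hk]⟩
        · ext i; simpa using ha.exists.choose_spec
        · obtain ⟨L, A, u0, u, h1, h2, h3, h4⟩ := ext_base P U Q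
          refine ⟨L, A, u0, u, h1, h2, h3, ?_⟩
          filter_upwards [h4, hSc.1.eventually_ge_atTop 0] with k hk hQ
          exact ⟨hk.1, hk.2.1, hk.2.2.1.trans (mul_le_mul_of_nonneg_right hε.le hQ), hk.2.2.2⟩
      · refine ⟨Unit ⊕ Unit, inferInstance, inferInstance, _, univ \ ∅,
          Sum.elim (fun _ => 0) fun _ => 1, Sum.elim (fun _ => 1) fun _ => 0,
          small_indep U m fun c h => hc ⟨c, h⟩,
          fun ε hε => ?_, fun _ _ => by simp, Eventually.of_forall fun k => by simp⟩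
        have := hExt K S P U Q l Λ Unit _ univ ∅ m 0 (ε / 2) (ε / 2) hSc (ext_base P U Q)
          (empty_subset _) (by simp) ((hm.and (hm' _ (half_pos hε))).mono fun k hk =>
            ⟨by linarith [hk.1], by simpa using hk.2⟩) (half_pos hε)
        rwa [show 2 * 0 + (Fintype.card Unit : ℝ) * (ε / 2) + ε / 2 = ε by simp] at this
    | insert T B' hTB ih =>
      obtain ⟨ι, _, _, x, F, a, b, hI, hD, hF, hab⟩ := ih ((subset_insert _ _).trans hB')
      have hTm : T ∈ B := hB' (mem_insert_self _ _)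
      obtain ⟨⟨p, hp⟩, -, hdis, hN, hz, hz'⟩ := hB T hTm
      have hTF : T ⊆ F := fun r hr => hF r fun T' hT' hr' =>
        disjoint_left.1 (hdis T' (hB' (mem_insert_of_mem hT')) fun h => hTB (h ▸ hT')) hr hr'
      refine ⟨ι ⊕ ι, inferInstance, inferInstance,
        fun k => Sum.elim (x k) fun i => z T k * x k i, F \ T, Sum.elim 0 a, Sum.elim b 0,
        fun c hc => ?_, fun ε hε => ?_, fun r hr => ?_, hab.mono fun k hk => ?_⟩
      · obtain ⟨hl, ξ, hξ, hξO, C, hC⟩ := hN p hp
        simp only [Fintype.sum_sum_type, Sum.elim_inl, Sum.elim_inr] at hc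
        have hcK : ∀ᶠ k in U, ∑ i, (ξ * c (Sum.inr i) + c (Sum.inl i)) * (x k i : K) =
            -(((z T k : K) - ξ) * ((∑ i, c (Sum.inr i) * x k i : ℤ) : K)) := hc.mono fun k hk => by
          have h1 := congrArg (Int.cast : ℤ → K) hk
          push_cast at h1 ⊢
          have h2 : ∑ i, (c (Sum.inr i) : K) * (z T k * x k i) =
              z T k * ∑ i, (c (Sum.inr i) : K) * x k i := by
            rw [mul_sum]; exact sum_congr rfl fun i _ => by ring
          simp only [add_mul, sum_add_distrib, mul_assoc, ← mul_sum]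
          linear_combination h1 - h2
        have hG := hSmall K S P U Q l ι x F p (fun i => ξ * c (Sum.inr i) + c (Sum.inl i)) (η / 2) η
          hSc hI (hD _ (half_pos hη)) (hTF hp) (half_lt_self hη) hl
          (fun i => ext_ok_add P p (ext_ok_mul P p hξO _) _)
          ⟨C, (hcK.and hC).mono fun k hk => by
            beta_reduce
            rw [hk.1, AbsoluteValue.map_neg, map_mul]
            exact (mul_le_of_le_one_right ((P.ab p).nonneg _) (ext_int_le P p _)).trans hk.2⟩
        have hG' : ∀ i, ξ * c (Sum.inr i) + c (Sum.inl i) = 0 := fun i => congrFun hG i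
        have h2 := hI (fun i => c (Sum.inr i)) ((hcK.and hz).mono fun k hk => by
          have h3 := hk.1
          simp only [hG', zero_mul, sum_const_zero] at h3
          have h4 := (mul_eq_zero.1 (neg_eq_zero.1 h3.symm)).resolve_left
            (sub_ne_zero.2 (small_ne hΛ hξ hk.2))
          exact_mod_cast h4)
        have h3 : ∀ i, c (Sum.inr i) = 0 := fun i => congrFun h2 i
        ext i
        rcases i with i | i
        · simpa [h3] using hG' i
        · exact h3 i
      · have hc0 : (0 : ℝ) ≤ Fintype.card ι := Nat.cast_nonneg _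
        have := hExt K S P U Q l Λ ι x F T (z T) (ε / 4 / (Fintype.card ι + 1))
          (ε / 2 / (Fintype.card ι + 1)) (ε / 2) hSc (hD _ (by positivity)) hTF
          (fun r hr => (hN r hr).2) ((hz.and (hz' _ (by positivity))).mono fun k hk =>
            ⟨by linarith [hk.1], hk.2⟩) (half_pos hε)
        rwa [show 2 * (ε / 4 / (Fintype.card ι + 1)) +
          (Fintype.card ι : ℝ) * (ε / 2 / (Fintype.card ι + 1)) + ε / 2 = ε by
            field_simp; ring] at this
      · exact mem_sdiff.2 ⟨hF r fun T' hT' => hr T' (mem_insert_of_mem hT'),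
          hr T (mem_insert_self _ _)⟩
      · simp only [Fintype.sum_sum_type, Sum.elim_inl, Sum.elim_inr, Pi.zero_apply, zero_mul,
          sum_const_zero, zero_add, add_zero, prod_insert hTB]
        refine ⟨?_, hk.2⟩
        rw [mul_left_comm, ← hk.1, mul_sum]
        exact sum_congr rfl fun i _ => by ring
  obtain ⟨ι, _, _, x, F, a, b, hI, hD, hF, hab⟩ := key B Subset.rfl
  have hK : ∀ᶠ k in U, ∑ i, (ζ * a i + (-b i : ℤ)) * (x k i : K) =
      ζ * ((m k * ∏ T ∈ B, z T k : ℤ) : K) - 1 := hab.mono fun k hk => by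
    have h1 := congrArg (Int.cast : ℤ → K) hk.2
    rw [← hk.1]
    push_cast at h1 ⊢
    simp only [add_mul, sum_add_distrib, mul_assoc, ← mul_sum, neg_mul, sum_neg_distrib, h1]
    ring
  obtain ⟨C, hC⟩ := hT
  have hG := hSmall K S P U Q l ι x F p1 (fun i => ζ * a i + (-b i : ℤ)) (η / 2) η hSc hI
    (hD _ (half_pos hη)) (hF p1 fun T hT => (hB T hT).2.1) (half_lt_self hη) hl1
    (fun i => ext_ok_add P p1 (ext_ok_mul P p1 hζO _) _)
    ⟨C, (hK.and hC).mono fun k hk => by beta_reduce; rw [hk.1]; exact hk.2⟩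
  have hG' : ∀ i, ζ * a i + (-b i : ℤ) = 0 := fun i => congrFun hG i
  have hz : ∀ᶠ k in U, ∀ T ∈ B, 2 ≤ z T k :=
    (eventually_all_finset B).2 fun T hT => (hB T hT).2.2.2.2.1
  obtain ⟨k, e1, e2, e3⟩ := (hK.and (hm.and hz)).exists
  simp only [hG', zero_mul, sum_const_zero] at e1
  have e4 : 1 ≤ ∏ T ∈ B, z T k := 
    Finset.prod_induction _ (fun y => 1 ≤ y) (fun a b => one_le_mul_of_one_le_of_one_le) le_rfl
      fun T hT => by linarith [e3 T hT]
  have e5 : 2 ≤ m k * ∏ T ∈ B, z T k := by nlinarith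
  refine small_ne (K := K) hΛ (ζ := ζ⁻¹) (by rw [inv_pow, hζ, inv_one]) e5 ?_
  exact eq_inv_of_mul_eq_one_right (by linear_combination -e1)

end Pool.Agent.Lib.MP_56f651_co.SP
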