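import Pool.Agent.Lib.MP_56f651_co.SP.St

open Finset

namespace Pool.Agent.Lib.MP_56f651_co.SP

lemma ds_nomult {p u : ℕ} [NeZero (p * u)] (hp : p.Prime) (h3 : 3 ≤ p) (hu : p ∣ u)
    {s : ZMod (p * u) → ℤ} (hs : Had s) (g : ZMod (p * u))
    (hg : ∀ x, s ((1 + u) * x - g) = s x) : False := by
  have hu0 : 0 < u := Nat.pos_of_ne_zero fun h => NeZero.ne (p * u) (by simp [h])
  have hpu : (p : ZMod (p * u)) * u = 0 := by exact_mod_cast ZMod.natCast_self (p * u)
  have huu : (u : ZMod (p * u)) * u = 0 := by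
    obtain ⟨c, hc⟩ := hu
    have : (u : ZMod (p * u)) = p * c := by exact_mod_cast congrArg (Nat.cast : ℕ → ZMod (p * u)) hc
    nth_rewrite 1 [this]
    linear_combination (c : ZMod (p * u)) * hpu
  have hit : ∀ (j : ℕ) x, s ((1 + j * u) * x - g * (j + u * (j.choose 2 : ℕ))) = s x := fun j => by
    induction j with
    | zero => simp
    | succ j ih =>
      intro x
      rw [← ih x, ← hg ((1 + j * u) * x - g * (j + u * (j.choose 2 : ℕ)))]
      congr 1
      rw [Nat.choose_succ_succ', Nat.choose_one_right]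
      push_cast
      linear_combination (g * (j.choose 2 : ℕ) - j * x) * huu
  have hpg : g * p = 0 := by
    by_contra h0
    have h1 := hs.cor (-(g * p)) (neg_ne_zero.2 h0)
    obtain ⟨c, hc⟩ := hp.dvd_choose_self (k := 2) (by norm_num) (by omega)
    have h2 : ∀ x, s (x + -(g * p)) = s x := fun x => by
      rw [← hit p x, hc]
      congr 1
      push_cast
      linear_combination (g * c - x) * hpu
    simp only [h2, hs.mul_self, sum_const, card_univ, nsmul_eq_mul, mul_one] at h1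
    omega
  obtain ⟨c, hc⟩ : ∃ c : ℕ, g = u * c := by
    have h1 : p * u ∣ g.val * p := by
      rw [← ZMod.natCast_eq_zero_iff]; simpa using hpg
    obtain ⟨c, hc⟩ := Nat.dvd_of_mul_dvd_mul_right hp.pos ((mul_comm p u).symm.dvd.trans h1)
    exact ⟨c, by rw [← Nat.cast_mul, ← hc, ZMod.natCast_zmod_val]⟩
  have hper : ∀ y : ZMod (p * u), ¬ p ∣ (y - c).val → s (y + u) = s y := fun y hy => by
    obtain ⟨j, hj⟩ := Nat.exists_mul_mod_eq_one_of_coprime
      ((Nat.Prime.coprime_iff_not_dvd hp).2 hy).symm hp.one_lt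
    have h1 := Nat.div_add_mod ((y - c).val * j) p
    rw [hj.2] at h1
    have h2 := congrArg (Nat.cast : ℕ → ZMod (p * u)) h1
    push_cast at h2
    rw [ZMod.natCast_zmod_val] at h2
    rw [← hit j y, hc]
    congr 1
    linear_combination (u : ZMod (p * u)) * h2 + (c * (j.choose 2 : ℕ)) * huu -
      (((y - c).val * j / p : ℕ) : ZMod (p * u)) * hpu
  have hu' : (u : ZMod (p * u)) ≠ 0 := fun h => by
    have := Nat.le_of_dvd hu0 ((ZMod.natCast_eq_zero_iff _ _).1 h)
    nlinarith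
  have hcard : (univ.filter fun y : ZMod (p * u) => p ∣ (y - c).val).card ≤ u := by
    conv_rhs => rw [← card_range u]
    refine card_le_card_of_injOn (fun y => (y - c).val / p) (fun y _ => ?_) fun y hy z hz h => ?_
    · exact mem_coe.2 (mem_range.2 (Nat.div_lt_of_lt_mul (ZMod.val_lt _)))
    · have h1 := (mem_filter.1 (mem_coe.1 hy)).2
      have h2 := (mem_filter.1 (mem_coe.1 hz)).2
      have h4 : (y - c).val = (z - c).val := by
        rw [← Nat.mul_div_cancel' h1, ← Nat.mul_div_cancel' h2]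
        exact congrArg (p * ·) h
      exact sub_left_injective (ZMod.val_injective _ h4)
  have h1 : ∑ y : ZMod (p * u), (1 - 2 * if p ∣ (y - c).val then (1 : ℤ) else 0) ≤
      ∑ y, s y * s (y + u) := sum_le_sum fun y _ => by
    split_ifs with h
    · rcases hs.sq y with h1 | h1 <;> rcases hs.sq (y + u) with h2 | h2 <;> simp [h1, h2]
    · simp [hper y h, hs.mul_self]
  rw [hs.cor _ hu', sum_sub_distrib, ← mul_sum, sum_boole] at h1
  simp only [sum_const, card_univ, ZMod.card, nsmul_eq_mul, mul_one] at h1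
  have h2 : ((univ.filter fun y : ZMod (p * u) => p ∣ (y - c).val).card : ℤ) ≤ u := by
    exact_mod_cast hcard
  have h4 : (3 : ℤ) ≤ p := by exact_mod_cast h3
  push_cast at h1
  nlinarith [Int.natCast_nonneg u]

lemma ds_pow {p k w y : ℕ} (hp : p.Prime) (hp2 : Odd p) (hk : 2 ≤ k) (hw : ¬ p ∣ w)
    (hy1 : 1 < y) (hyw : w ∣ y - 1) (hyp : p ∣ y - 1) (hy : ¬ p ^ k ∣ y - 1) :
    ∃ e : ℕ, (y : ZMod (p * (p ^ (k - 1) * w))) ^ e = 1 + (p ^ (k - 1) * w : ℕ) := by
  have : Fact p.Prime := ⟨hp⟩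
  obtain ⟨k, rfl⟩ : ∃ k', k = k' + 1 := ⟨k - 1, by omega⟩
  simp only [Nat.add_sub_cancel]
  have hy0 : y - 1 ≠ 0 := by omega
  have hi : padicValNat p (y - 1) ≤ k := by
    by_contra h
    exact hy ((padicValNat_dvd_iff_le hy0).2 (by omega))
  have hpy : ¬ p ∣ y := fun h => hp.one_lt.ne' (Nat.dvd_one.1 (by
    have := Nat.dvd_sub h hyp
    rwa [Nat.sub_sub_self hy1.le] at this))
  have h1 := padicValNat.pow_sub_pow hp2 hy1 hyp hpy
    (n := p ^ (k - padicValNat p (y - 1))) (pow_ne_zero _ hp.ne_zero)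
  rw [one_pow, padicValNat.prime_pow, Nat.add_sub_cancel' hi] at h1
  set Y := y ^ p ^ (k - padicValNat p (y - 1)) with hY
  have hY1 : 1 < Y := Nat.one_lt_pow (pow_ne_zero _ hp.ne_zero) hy1
  have hY0 : Y - 1 ≠ 0 := by omega
  have h2 : p ^ k ∣ Y - 1 := (padicValNat_dvd_iff_le hY0).2 h1.ge
  have h3 : ¬ p ^ (k + 1) ∣ Y - 1 := fun h => by
    have := (padicValNat_dvd_iff_le hY0).1 h
    omega
  have h4 : w ∣ Y - 1 := hyw.trans (Nat.sub_one_dvd_pow_sub_one _ _)
  have hco : p.Coprime w := (Nat.Prime.coprime_iff_not_dvd hp).2 hw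
  obtain ⟨c, hc⟩ := (hco.pow_left k).mul_dvd_of_dvd_of_dvd h2 h4
  have hpc : ¬ p ∣ c := fun ⟨d, hd⟩ => h3 ⟨w * d, by rw [hc, hd]; ring⟩
  obtain ⟨e, he⟩ := Nat.exists_mul_mod_eq_one_of_coprime
    ((Nat.Prime.coprime_iff_not_dvd hp).2 hpc).symm hp.one_lt
  set u := p ^ k * w with hu
  have hpu : (p : ZMod (p * u)) * u = 0 := by exact_mod_cast ZMod.natCast_self (p * u)
  have huu : (u : ZMod (p * u)) * u = 0 := by
    obtain ⟨d, hd⟩ : p ∣ u := (dvd_pow_self p (by omega)).mul_right w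
    have : (u : ZMod (p * u)) = p * d := by exact_mod_cast congrArg (Nat.cast : ℕ → ZMod (p * u)) hd
    nth_rewrite 1 [this]
    linear_combination (d : ZMod (p * u)) * hpu
  have hYc : (Y : ZMod (p * u)) = 1 + u * c := by
    have : Y = 1 + u * c := by omega
    rw [this]; push_cast; rfl
  have h5 : ∀ j : ℕ, (Y : ZMod (p * u)) ^ j = 1 + u * c * j := fun j => by
    induction j with
    | zero => simp
    | succ j ih =>
      rw [pow_succ, ih, hYc]
      push_cast
      linear_combination (c * c * j : ZMod (p * u)) * huu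
  have h6 := Nat.div_add_mod (c * e) p
  rw [he.2] at h6
  have h7 := congrArg (Nat.cast : ℕ → ZMod (p * u)) h6
  push_cast at h7
  refine ⟨p ^ (k - padicValNat p (y - 1)) * e, ?_⟩
  rw [pow_mul, ← Nat.cast_pow, ← hY, h5]
  linear_combination (-u : ZMod (p * u)) * h7 + ((c * e / p : ℕ) : ZMod (p * u)) * hpu

lemma ds_phi {p w v : ℕ} (hp : p.Prime) (hw : ¬ p ∣ w) (hv : v ≠ 0) (hwv : w ∣ v) :
    padicValNat p w.totient ≤ Nat.log p (∏ r ∈ v.primeFactors, r) := by
  have hco : p.Coprime w := (Nat.Prime.coprime_iff_not_dvd hp).2 hw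
  have h1 : p ^ padicValNat p w.totient ∣ w * ∏ r ∈ w.primeFactors, (r - 1) := by
    rw [← Nat.totient_mul_prod_primeFactors]
    exact pow_padicValNat_dvd.mul_right _
  have h2 := (hco.pow_left _).dvd_of_dvd_mul_left h1
  have h3 : 0 < ∏ r ∈ w.primeFactors, (r - 1) := prod_pos fun r hr => by
    have := (Nat.prime_of_mem_primeFactors hr).two_le
    omega
  refine Nat.le_log_of_pow_le hp.one_lt ((Nat.le_of_dvd h3 h2).trans ?_)
  refine (prod_le_prod' fun r _ => Nat.sub_le r 1).trans ?_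
  exact prod_le_prod_of_subset_of_one_le' (Nat.primeFactors_mono hwv hv)
    fun r hr _ => (Nat.prime_of_mem_primeFactors hr).one_le

theorem stDS (hMult : StMult) : StDS := by
  intro v _ s p hv hs hp
  have : Fact p.Prime := ⟨hp⟩
  have hv0 : v ≠ 0 := NeZero.ne v
  by_cases h0 : v.factorization p - Nat.log p (∏ r ∈ v.primeFactors, r) = 0
  · exact ⟨2, Nat.prime_two, hv.add_one.two_dvd, by rw [h0, pow_zero]; exact Nat.modEq_one⟩
  have hpv : p ∣ v := Nat.dvd_of_factorization_pos (by omega)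
  have hp2 : Odd p := hv.of_dvd_nat hpv
  have h3 : 3 ≤ p := by
    have := hp.two_le
    obtain ⟨a, ha⟩ := hp2
    omega
  have hlog : 1 ≤ Nat.log p (∏ r ∈ v.primeFactors, r) := by
    refine Nat.le_log_of_pow_le hp.one_lt ?_
    rw [pow_one]
    exact Nat.le_of_dvd (prod_pos fun r hr => (Nat.prime_of_mem_primeFactors hr).pos)
      (dvd_prod_of_mem _ (Nat.mem_primeFactors.2 ⟨hp, hpv, hv0⟩))
  obtain ⟨k, w, hw, hkw⟩ := Nat.exists_eq_pow_mul_and_not_dvd hv0 p hp.ne_one
  have hw0 : w ≠ 0 := fun h => hw (by simp [h])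
  have hk : v.factorization p = k := by
    rw [hkw, Nat.factorization_mul (pow_ne_zero _ hp.ne_zero) hw0, Finsupp.add_apply,
      hp.factorization_pow, Finsupp.single_eq_same, Nat.factorization_eq_zero_of_not_dvd hw,
      add_zero]
  have hμ := ds_phi hp hw hv0 (hkw ▸ dvd_mul_left w _)
  rw [hk] at h0 ⊢
  have hk2 : 2 ≤ k := by omega
  generalize Nat.log p (∏ r ∈ v.primeFactors, r) = μ at *
  have hvu : v = p * (p ^ (k - 1) * w) := by
    rw [← mul_assoc, ← pow_succ', Nat.sub_add_cancel (by omega), hkw]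
  by_contra hc
  push Not at hc
  subst hvu
  obtain ⟨g, hg⟩ := hMult _ s (1 + (p ^ (k - 1) * w : ℕ)) hs fun q hq hqv => by
    have hco : q.Coprime (p * (p ^ (k - 1) * w)) := Nat.Coprime.coprime_dvd_left hqv (by simp)
    have hqp : q.Coprime p := hco.coprime_mul_right_right
    have hqw : q.Coprime w := hco.coprime_mul_left_right.coprime_mul_left_right
    have hφ : 0 < w.totient := Nat.totient_pos.2 (Nat.pos_of_ne_zero hw0)
    have e1 : 1 < q ^ (p - 1) := Nat.one_lt_pow (by omega) hq.one_lt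
    have e2 : p ∣ q ^ (p - 1) - 1 := by
      have := Nat.ModEq.pow_totient hqp
      rw [Nat.totient_prime hp] at this
      exact (Nat.modEq_iff_dvd' e1.le).1 this.symm
    have e3 : 1 < (q ^ (p - 1)) ^ w.totient := Nat.one_lt_pow hφ.ne' e1
    have e4 : ¬ p ∣ q ^ (p - 1) := (Nat.Prime.coprime_iff_not_dvd hp).1 (hqp.symm.pow_right _)
    have e5 := padicValNat.pow_sub_pow hp2 e1 e2 e4 hφ.ne'
    rw [one_pow] at e5
    obtain ⟨e, he⟩ := ds_pow (y := (q ^ (p - 1)) ^ w.totient) hp hp2 hk2 hw e3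
      ((Nat.modEq_iff_dvd' e3.le).1 (Nat.ModEq.pow_totient (hqw.pow_left _)).symm)
      (e2.trans (Nat.sub_one_dvd_pow_sub_one _ _)) fun h => by
        have e6 := (padicValNat_dvd_iff_le (by omega)).1 h
        refine hc q hq hqv ((Nat.modEq_iff_dvd' e1.le).2 ?_).symm
        exact (padicValNat_dvd_iff_le (by omega)).2 (by omega)
    exact ⟨(p - 1) * w.totient * e, by rw [← he]; push_cast; rw [pow_mul, pow_mul]⟩
  exact ds_nomult hp h3 ((dvd_pow_self p (by omega)).mul_right w) hs g hg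

end Pool.Agent.Lib.MP_56f651_co.SP
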