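import Pool.Agent.Lib.MP_56f651_co.SP.St

open Filter Finset Matrix Real

namespace Pool.Agent.Lib.MP_56f651_co.SP

section

variable {K : Type} [Field K] {S : Finset ℕ} (P : Pl K S) (p : S)

lemma ext_int_le (z : ℤ) : P.ab p (z : K) ≤ 1 := by
  have : Fact (p : ℕ).Prime := ⟨P.prime p p.2⟩
  rw [P.int]
  exact_mod_cast padicNorm.of_int z

lemma ext_ok_int (z : ℤ) : P.Ok p (z : K) :=
  ⟨isIntegral_algebraMap (R := ℤ) (A := K) (x := z), fun ε hε => ⟨z, by simpa using hε⟩⟩

lemma ext_ok_zero : P.Ok p 0 := by simpa using ext_ok_int P p 0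

lemma ext_ok_one {ι : Type} [DecidableEq ι] (i j : ι) : P.Ok p ((1 : Matrix ι ι K) i j) := by
  rw [Matrix.one_apply]
  split_ifs
  · simpa using ext_ok_int P p 1
  · exact ext_ok_zero P p

lemma ext_ok_mul {y : K} (h : P.Ok p y) (c : ℤ) : P.Ok p (y * c) := by
  refine ⟨h.1.mul (ext_ok_int P p c).1, fun ε hε => ?_⟩
  obtain ⟨z, hz⟩ := h.2 ε hε
  refine ⟨z * c, ?_⟩
  rw [Int.cast_mul, ← sub_mul, map_mul]
  exact (mul_le_of_le_one_right ((P.ab p).nonneg _) (ext_int_le P p c)).trans_lt hz

lemma ext_ok_add {y : K} (h : P.Ok p y) (c : ℤ) : P.Ok p (y + c) := by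
  refine ⟨h.1.add (ext_ok_int P p c).1, fun ε hε => ?_⟩
  obtain ⟨z, hz⟩ := h.2 ε hε
  exact ⟨z + c, by rwa [Int.cast_add, add_sub_add_right_eq_sub]⟩

/-- the family that consists of the number one -/
lemma ext_base (U : Ultrafilter ℕ) (Q : ℕ → ℝ) :
    P.Data U Q (fun (_ : ℕ) (_ : Unit) => 1) univ 0 :=
  ⟨fun _ => 1, 0, fun _ _ => 0, fun _ _ _ => 0, fun p i j => ext_ok_one P p i j, by simp,
    fun _ _ => ⟨rfl, fun _ _ => rfl⟩, Eventually.of_forall fun k => by simp⟩

end

theorem stExt : StExt := by
  intro K _ S P U Q l Λ ι _ _ x F T z ε ε' ε'' hSc ⟨L, A, u0, u, hO, hL, hF, h⟩ hT hN hz hε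
  classical
  have h1 : ∀ p : S, ∃ (ζ : K) (C : ℝ), P.Ok p ζ ∧
      (p ∈ T → ∀ᶠ k in U, P.ab p ((z k : K) - ζ) ≤ exp (C - l k p)) := fun p => by
    by_cases hp : p ∈ T
    · obtain ⟨ζ, -, h2, C, h3⟩ := hN p hp
      exact ⟨ζ, C, h2, fun _ => h3⟩
    · exact ⟨0, 0, ext_ok_zero P p, fun h => absurd h hp⟩
  choose ζ C hζ hC using h1
  have hC0 : 0 ≤ ∑ p, |C p| := sum_nonneg fun _ _ => abs_nonneg _
  have hCp : ∀ p, |C p| ≤ ∑ p, |C p| := fun p =>
    single_le_sum (f := fun p => |C p|) (fun _ _ => abs_nonneg _) (mem_univ p)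
  refine ⟨fun p => if p ∈ T then fromBlocks 1 0 (-(ζ p) • 1) 1 else fromBlocks (L p) 0 0 (L p),
    |A| + T.card + |ε'| + ∑ p, |C p| + 1, fun k => Sum.elim (u0 k) fun i => u0 k i + log (z k),
    fun k p => Sum.elim (u k p) fun i => if p ∈ T then C p - l k p else u k p i,
    fun p i j => ?_, fun p => ?_, fun p hp => ?_, ?_⟩
  · by_cases hp : p ∈ T
    · simp only [hp, if_true]
      rcases i with i | i <;> rcases j with j | j
      · exact ext_ok_one P p i j
      · exact ext_ok_zero P p
      · rw [fromBlocks_apply₂₁, Matrix.smul_apply, Matrix.one_apply]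
        split_ifs
        · simpa using ext_ok_mul P p (hζ p) (-1)
        · simpa using ext_ok_zero P p
      · exact ext_ok_one P p i j
    · simp only [hp, if_false]
      rcases i with i | i <;> rcases j with j | j
      · exact hO p i j
      · exact ext_ok_zero P p
      · exact ext_ok_zero P p
      · exact hO p i j
  · by_cases hp : p ∈ T
    · simp only [hp, if_true]
      rw [det_fromBlocks_zero₁₂]; simp
    · simp only [hp, if_false]
      rw [det_fromBlocks_zero₁₂]; exact mul_ne_zero (hL p) (hL p)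
  · obtain ⟨hp1, hp2⟩ := mem_sdiff.1 hp
    simp only [hp2, if_false]
    refine ⟨by rw [(hF p hp1).1, fromBlocks_one], fun k i => ?_⟩
    rcases i with i | i <;> exact (hF p hp1).2 k i
  · have hall : ∀ᶠ k in U, ∀ p ∈ T, P.ab p ((z k : K) - ζ p) ≤ exp (C p - l k p) :=
      (eventually_all_finset T).2 fun p hp => hC p hp
    filter_upwards [h, hz, hall, hSc.1.eventually_ge_atTop 1,
      (hSc.1.const_mul_atTop hε).eventually_ge_atTop (Fintype.card ι * ∑ p, |C p|)]
      with k hk hzk hCk hQ1 hQ2
    obtain ⟨a1, a2, a3, a4, a5⟩ := hk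
    have hz1 : (1 : ℝ) ≤ z k := by exact_mod_cast hzk.1
    have hl0 : 0 ≤ log (z k) := log_nonneg hz1
    have hAQ : A * Q k ≤ |A| * Q k := mul_le_mul_of_nonneg_right (le_abs_self _) (by linarith)
    have hA0 : 0 ≤ |A| * Q k := by positivity
    have hT0 : 0 ≤ (T.card : ℝ) * Q k := by positivity
    have hε0 : 0 ≤ |ε'| * Q k := by positivity
    have hCQ : ∑ p, |C p| ≤ (∑ p, |C p|) * Q k := le_mul_of_one_le_right hC0 hQ1
    have hl1 : log (z k) ≤ T.card * Q k + |ε'| * Q k := by
      have b1 : ∑ p ∈ T, l k p ≤ T.card * Q k := by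
        simpa using sum_le_card_nsmul T _ _ fun p _ => (hSc.2 k p).2
      have b2 : ε' * Q k ≤ |ε'| * Q k := mul_le_mul_of_nonneg_right (le_abs_self _) (by linarith)
      linarith [hzk.2]
    refine ⟨fun i => ?_, fun p i => ?_, ?_, fun i => ?_, fun p i => ?_⟩
    · rcases i with i | i
      · refine (a1 i).trans ?_
        simp only [add_mul]; linarith
      · have := abs_le.1 (a1 i)
        simp only [Sum.elim_inr, add_mul]
        rw [abs_le]; constructor <;> linarith
    · rcases i with i | i
      · refine (a2 p i).trans ?_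
        simp only [add_mul]; linarith
      · simp only [Sum.elim_inr, add_mul]
        split_ifs
        · have b1 := abs_le.1 (hCp p)
          have b2 := hSc.2 k p
          rw [abs_le]; constructor <;> linarith
        · refine (a2 p i).trans ?_
          linarith
    · have b1 : ∀ p : S, ∑ i, (if p ∈ T then C p - l k p else u k p i) =
          ∑ i, u k p i + if p ∈ T then Fintype.card ι * (C p - l k p) else 0 := fun p => by
        by_cases hp : p ∈ T
        · simp [hp, (hF p (hT hp)).2, mul_sub]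
        · simp [hp]
      have b2 : ∑ p ∈ T, C p ≤ ∑ p, |C p| :=
        (sum_le_sum fun p _ => le_abs_self (C p)).trans
          (sum_le_sum_of_subset_of_nonneg (subset_univ _) fun _ _ _ => abs_nonneg _)
      have b3 : (0 : ℝ) ≤ Fintype.card ι := Nat.cast_nonneg _
      simp only [Fintype.sum_sum_type, Sum.elim_inl, Sum.elim_inr, b1, sum_add_distrib, sum_const,
        card_univ, nsmul_eq_mul, sum_ite_mem, univ_inter, ← mul_sum, sum_sub_distrib]
      nlinarith [mul_le_mul_of_nonneg_left hzk.2 b3, mul_le_mul_of_nonneg_left b2 b3]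
    · rcases i with i | i
      · exact a4 i
      · simp only [Sum.elim_inr]
        rw [Int.cast_mul, abs_mul, exp_add, exp_log (by linarith), abs_of_pos (by linarith),
          mul_comm]
        exact mul_le_mul_of_nonneg_right (a4 i) (by linarith)
    · have b0 : (fun j => ((Sum.elim (x k) (fun i => z k * x k i) j : ℤ) : K)) =
          Sum.elim (fun j => (x k j : K)) ((z k : K) • fun j => (x k j : K)) := by
        ext j; rcases j with j | j <;> simp
      rw [b0]
      by_cases hp : p ∈ T
      · simp only [hp, if_true, fromBlocks_mulVec]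
        rcases i with i | i
        · simpa [(hF p (hT hp)).2] using ext_int_le P p (x k i)
        · have b1 : P.ab p (((z k : K) - ζ p) * x k i) ≤ exp (C p - l k p) := by
            rw [map_mul]
            exact (mul_le_of_le_one_right ((P.ab p).nonneg _) (ext_int_le P p _)).trans (hCk p hp)
          refine le_of_eq_of_le ?_ b1
          congr 1
          simp [Matrix.smul_mulVec, Matrix.neg_mulVec]
          ring
      · simp only [hp, if_false, fromBlocks_mulVec]
        rcases i with i | i
        · simpa using a5 p i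
        · have b1 : P.ab p ((z k : K) * (L p *ᵥ fun j => (x k j : K)) i) ≤ exp (u k p i) := by
            rw [map_mul]
            exact (mul_le_of_le_one_left ((P.ab p).nonneg _) (ext_int_le P p _)).trans (a5 p i)
          refine le_of_eq_of_le ?_ b1
          congr 1
          simp [Matrix.mulVec_smul]

end Pool.Agent.Lib.MP_56f651_co.SP
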