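import Pool.Agent.Lib.MP_56f651_co.SP.Root
import Pool.Agent.Lib.MP_56f651_co.SP.Ext

open Filter Finset Matrix Real

namespace Pool.Agent.Lib.MP_56f651_co.SP

/-- a quantity that is at most `c * ε * Q` for every `ε` is at most `ε * Q` for every `ε` -/
lemma dio_scale {U : Ultrafilter ℕ} {Q f : ℕ → ℝ} (c : ℝ) (hc : 0 < c)
    (h : ∀ ε : ℝ, 0 < ε → ∀ᶠ k in U, f k ≤ c * (ε * Q k)) (ε : ℝ) (hε : 0 < ε) :
    ∀ᶠ k in U, f k ≤ ε * Q k :=
  (h (ε / c) (by positivity)).mono fun k hk => hk.trans (le_of_eq (by field_simp))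

lemma dio_cover {α : Type} [DecidableEq α] (I : Finset α) (B : Finset (Finset α)) (l : α → ℝ)
    (hl : ∀ p, 0 ≤ l p) (hB : ∀ p ∈ I, ∃ T ∈ B, p ∈ T) :
    ∑ p ∈ I, l p ≤ ∑ T ∈ B, ∑ p ∈ T, l p := by
  have h1 : I ⊆ B.biUnion id := fun p hp => by simpa using hB p hp
  refine (sum_le_sum_of_subset_of_nonneg h1 fun p _ _ => hl p).trans ?_
  clear hB h1
  induction B using Finset.induction_on with
  | empty => simp
  | insert T B hT ih =>
    rw [biUnion_insert, sum_insert hT]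
    have := sum_union_inter (s₁ := T) (s₂ := B.biUnion id) (f := l)
    have h2 : 0 ≤ ∑ p ∈ T ∩ B.biUnion id, l p := sum_nonneg fun p _ => hl p
    simp only [id] at *
    linarith

theorem stDio (hRoot : StRoot) (hRid : StRid) (hChain : StChain) : StDio := by
  intro S Λ U v j hS hΛ hv hodd hj hsum hq
  classical
  obtain ⟨K, _, _, P, hN⟩ := hRoot S Λ hS hΛ
  set l : ℕ → S → ℝ := fun k r => j k r * log ((r : ℕ) : ℝ) with hl
  let Q : ℕ → ℝ := fun k => log (v k)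
  have hv0 : ∀ k, 0 < v k := fun k => (hodd k).pos
  have hlp : ∀ p : S, 0 < log ((p : ℕ) : ℝ) := fun p =>
    log_pos (by exact_mod_cast (hS p p.2).one_lt)
  have hQ : Tendsto Q U atTop := tendsto_log_atTop.comp (tendsto_natCast_atTop_atTop.comp hv)
  have hl0 : ∀ k p, 0 ≤ l k p := fun k p => mul_nonneg (Nat.cast_nonneg _) (hlp p).le
  have hSc : Scale U Q l := ⟨hQ, fun k p => ⟨hl0 k p, by
    have h1 : (((p : ℕ) : ℝ)) ^ j k p ≤ v k := by exact_mod_cast Nat.le_of_dvd (hv0 k) (hj k p)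
    have h2 := log_le_log (pow_pos (by exact_mod_cast (hS p p.2).pos) _) h1
    rwa [log_pow] at h2⟩⟩
  let I : Finset S := univ.filter fun p => ∃ η : ℝ, 0 < η ∧ ∀ᶠ k in U, η * Q k ≤ l k p
  obtain ⟨η, hη, hI⟩ : ∃ η : ℝ, 0 < η ∧ ∀ p ∈ I, ∀ᶠ k in U, η * Q k ≤ l k p := by
    have h1 : ∀ p : S, ∃ η : ℝ, 0 < η ∧ (p ∈ I → ∀ᶠ k in U, η * Q k ≤ l k p) := fun p => by
      by_cases hp : p ∈ I
      · obtain ⟨η, h1, h2⟩ := (mem_filter.1 hp).2
        exact ⟨η, h1, fun _ => h2⟩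
      · exact ⟨1, one_pos, fun h => absurd h hp⟩
    choose e he he' using h1
    obtain ⟨η, h2, h3⟩ := Pi.exists_forall_pos_add_lt (x := fun _ : S => (0 : ℝ)) (y := e) he
    refine ⟨η, h2, fun p hp => ?_⟩
    filter_upwards [he' p hp, hQ.eventually_ge_atTop 0] with k h4 h5
    exact (mul_le_mul_of_nonneg_right (by linarith [h3 p]) h5).trans h4
  have hIsum : ∀ ε : ℝ, 0 < ε → ∀ᶠ k in U, Q k - ∑ p ∈ I, l k p ≤ ε * Q k := by
    refine dio_scale (Fintype.card S + 1) (by positivity) fun ε hε => ?_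
    have h1 : ∀ᶠ k in U, ∀ p ∈ Iᶜ, l k p ≤ ε * Q k := (eventually_all_finset _).2 fun p hp => by
      by_contra h2
      rw [← Ultrafilter.eventually_not] at h2
      exact mem_compl.1 hp (mem_filter.2 ⟨mem_univ _, ε, hε, h2.mono fun k hk => (not_le.1 hk).le⟩)
    filter_upwards [h1, hsum ε hε, hQ.eventually_ge_atTop 0] with k h2 h3 h4
    have h5 := sum_le_card_nsmul _ _ _ h2
    have h6 : ((Iᶜ).card : ℝ) ≤ Fintype.card S := by exact_mod_cast card_le_univ _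
    have h7 := sum_add_sum_compl I (l k)
    rw [nsmul_eq_mul] at h5
    have h8 := mul_le_mul_of_nonneg_right h6 (mul_nonneg hε.le h4)
    change (1 - ε) * Q k ≤ ∑ p, l k p at h3
    linarith
  have hjt : ∀ p ∈ I, Tendsto (fun k => j k p) U atTop := fun p hp => by
    have h1 : Tendsto (fun k => (j k p : ℝ) * log ((p : ℕ) : ℝ)) U atTop :=
      tendsto_atTop_mono' _ (hI p hp) (hQ.const_mul_atTop hη)
    exact tendsto_natCast_atTop_iff.1 ((tendsto_mul_const_atTop_of_pos (hlp p)).1 h1)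
  let cl : ℕ → ℕ → Finset S := fun k q => I.filter fun p => q ^ Λ ≡ 1 [MOD (p : ℕ) ^ j k p]
  let zn : Finset S → ℕ → ℕ := fun T k =>
    ∏ q ∈ (v k + 1).primeFactors with cl k q = T, q ^ (v k + 1).factorization q
  let z : Finset S → ℕ → ℤ := fun T k => zn T k
  have hz0 : ∀ T k, 0 < zn T k := fun T k => prod_pos fun q hq =>
    pow_pos (Nat.prime_of_mem_primeFactors (mem_filter.1 hq).1).pos _
  have hz2 : ∀ k q, q.Prime → q ∣ v k + 1 → 2 ≤ z (cl k q) k := fun k q hq hqv => by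
    have h1 : q ^ (v k + 1).factorization q ∣ zn (cl k q) k :=
      dvd_prod_of_mem _ (mem_filter.2 ⟨Nat.mem_primeFactors.2 ⟨hq, hqv, by omega⟩, rfl⟩)
    have h2 : q ∣ q ^ (v k + 1).factorization q :=
      dvd_pow_self _ (hq.factorization_pos_of_dvd (by omega) hqv).ne'
    have h3 := hq.two_le.trans (Nat.le_of_dvd (hz0 _ _) (h2.trans h1))
    simp only [z]
    exact_mod_cast h3
  have hzp : ∀ k, ∏ T, zn T k = v k + 1 := fun k => by
    rw [prod_fiberwise]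
    exact Nat.prod_factorization_pow_eq_self (by omega)
  have hzT : ∀ T k, 2 ≤ z T k → T ⊆ I := fun T k h => by
    by_contra h1
    have h2 : zn T k = 1 := prod_eq_one fun q hq =>
      absurd ((mem_filter.1 hq).2 ▸ filter_subset _ _) h1
    simp [z, h2] at h
  have hzN : ∀ T, ∀ p ∈ T, p ∈ I → P.Near U l Λ p (z T) := fun T p hp hpI =>
    hN U j p (z T) (hjt p hpI) (Eventually.of_forall fun k => by
      have h1 : zn T k ^ Λ ≡ 1 [MOD (p : ℕ) ^ j k p] := by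
        rw [← prod_pow]
        refine prod_induction _ (fun y => y ≡ 1 [MOD (p : ℕ) ^ j k p])
          (fun a b ha hb => by simpa using ha.mul hb) rfl fun q hq => ?_
        have h2 := (mem_filter.1 ((mem_filter.1 hq).2 ▸ hp : p ∈ cl k q)).2
        rw [← pow_mul, mul_comm, pow_mul]
        simpa using h2.pow _
      have h2 := h1.symm.dvd
      push_cast at h2
      exact h2)
  have hm : ∀ᶠ k in U, 2 ≤ z ∅ k := by
    have h1 : ∀ᶠ k in U, ∀ p ∈ I, 2 ^ Λ ≤ j k p :=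
      (eventually_all_finset _).2 fun p hp => (hjt p hp).eventually_ge_atTop _
    refine h1.mono fun k hk => ?_
    have h2 : cl k 2 = ∅ := filter_eq_empty_iff.2 fun p hp h => by
      have h3 : 1 < 2 ^ Λ := Nat.one_lt_two_pow hΛ.ne'
      have h4 := Nat.le_of_dvd (by omega) ((Nat.modEq_iff_dvd' h3.le).1 h.symm)
      have h5 := Nat.lt_pow_self (n := j k p) (hS p p.2).one_lt
      have h6 := hk p hp
      omega
    exact h2 ▸ hz2 k 2 Nat.prime_two (hodd k).add_one.two_dvd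
  let B : Finset (Finset S) := univ.filter fun T => T.Nonempty ∧ ∀ᶠ k in U, 2 ≤ z T k
  have hB : ∀ T ∈ B, T.Nonempty ∧ (∀ᶠ k in U, 2 ≤ z T k) ∧ T ⊆ I := fun T hT => by
    obtain ⟨h1, h2⟩ := (mem_filter.1 hT).2
    exact ⟨h1, h2, hzT T _ h2.exists.choose_spec⟩
  have hcov : ∀ p ∈ I, ∃ T ∈ B, p ∈ T := fun p hp => by
    have h1 : ∀ᶠ k in U, ∃ T : Finset S, p ∈ T ∧ 2 ≤ z T k := Eventually.of_forall fun k => by
      obtain ⟨q, h1, h2, h3⟩ := hq k p
      exact ⟨cl k q, mem_filter.2 ⟨hp, h3⟩, hz2 k q h1 h2⟩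
    obtain ⟨T, h2⟩ := Ultrafilter.eventually_exists_iff.1 h1
    have h3 : p ∈ T := h2.exists.choose_spec.1
    exact ⟨T, mem_filter.2 ⟨mem_univ _, ⟨p, h3⟩, h2.mono fun k hk => hk.2⟩, h3⟩
  have hprod : ∀ᶠ k in U, z ∅ k * ∏ T ∈ B, z T k = v k + 1 := by
    have h1 : ∀ᶠ k in U, ∀ T ∈ (insert ∅ B)ᶜ, z T k = 1 := (eventually_all_finset _).2 fun T hT => by
      rw [mem_compl, mem_insert, not_or] at hT
      have h2 : ¬ ∀ᶠ k in U, 2 ≤ z T k := fun h =>
        hT.2 (mem_filter.2 ⟨mem_univ _, nonempty_iff_ne_empty.2 hT.1, h⟩)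
      rw [← Ultrafilter.eventually_not] at h2
      refine h2.mono fun k hk => ?_
      have := hz0 T k
      simp only [z] at hk ⊢
      omega
    refine h1.mono fun k hk => ?_
    have h2 : ∅ ∉ B := fun h => by simpa using (hB _ h).1
    have h3 := prod_mul_prod_compl (insert ∅ B) fun T => z T k
    rw [prod_eq_one hk, mul_one, prod_insert h2] at h3
    rw [h3]
    simp only [z]
    exact_mod_cast hzp k
  have hzr : ∀ T k, (1 : ℝ) ≤ z T k := fun T k => by
    simp only [z]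
    exact_mod_cast hz0 T k
  have hmain : ∀ ε : ℝ, 0 < ε → ∀ᶠ k in U, 0 ≤ ε * Q k ∧
      log (z ∅ k) + ∑ T ∈ B, log (z T k) ≤ Q k + ε * Q k ∧ Q k - ∑ p ∈ I, l k p ≤ ε * Q k ∧
      ∀ T ∈ B, ∑ p ∈ T, l k p ≤ log (z T k) + ε * Q k := fun ε hε => by
    have h1 : ∀ᶠ k in U, ∀ T ∈ B, ∑ p ∈ T, l k p ≤ log (z T k) + ε * Q k :=
      (eventually_all_finset _).2 fun T hT => hRid K S P U Q l Λ T (z T) η hSc hΛ hη (hB T hT).1
        (fun p hp => ⟨hI p ((hB T hT).2.2 hp), hzN T p hp ((hB T hT).2.2 hp)⟩) (hB T hT).2.1 ε hε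
    filter_upwards [h1, hIsum ε hε, hprod, (hQ.const_mul_atTop hε).eventually_ge_atTop 1]
      with k h2 h3 h4 h5
    refine ⟨by linarith, ?_, h3, h2⟩
    have h6 : (z ∅ k : ℝ) * ∏ T ∈ B, (z T k : ℝ) = v k + 1 := by exact_mod_cast h4
    have h7 : (1 : ℝ) ≤ v k := by exact_mod_cast hv0 k
    rw [← log_prod fun T _ => by linarith [hzr T k], ← log_mul (by linarith [hzr ∅ k])
      (prod_ne_zero_iff.2 fun T _ => by linarith [hzr T k]), h6]
    have h8 : log ((v k : ℝ) + 1) ≤ log (2 * v k) := log_le_log (by linarith) (by linarith)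
    rw [log_mul two_ne_zero (by linarith)] at h8
    have h9 : log 2 ≤ 2 - 1 := log_le_sub_one_of_pos two_pos
    change _ ≤ log (v k) + _
    linarith
  have hcB : (0 : ℝ) ≤ B.card := Nat.cast_nonneg _
  have hkey : ∀ ε : ℝ, 0 < ε → ∀ᶠ k in U, log (z ∅ k) ≤ ε * Q k ∧
      ∑ T ∈ B, ∑ p ∈ T, l k p - ∑ p ∈ I, l k p ≤ ε * Q k ∧
      ∀ T ∈ B, log (z T k) ≤ ∑ p ∈ T, l k p + ε * Q k := fun ε hε => by
    filter_upwards [hmain (ε / (B.card + 2)) (by positivity)] with k hk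
    obtain ⟨h0, h1, h2, h3⟩ := hk
    set e := ε / (B.card + 2) * Q k with he
    have h4 : ε * Q k = B.card * e + 2 * e := by rw [he]; field_simp
    have h5 := dio_cover I B (l k) (hl0 k) hcov
    have h6 := sum_le_sum h3
    rw [sum_add_distrib, sum_const, nsmul_eq_mul] at h6
    have h7 := log_nonneg (hzr ∅ k)
    refine ⟨by linarith, by linarith, fun T hT => ?_⟩
    have h8 := single_le_sum (f := fun T => log (z T k) + e - ∑ p ∈ T, l k p)
      (fun T hT => by linarith [h3 T hT]) hT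
    simp only [sum_sub_distrib, sum_add_distrib, sum_const, nsmul_eq_mul] at h8
    linarith
  have hdis : ∀ T ∈ B, ∀ T' ∈ B, T ≠ T' → Disjoint T T' := fun T hT T' hT' hne => by
    refine disjoint_left.2 fun p hp hp' => ?_
    obtain ⟨k, h1, h2, h3⟩ := ((hkey (η / 2) (half_pos hη)).and ((hI p ((hB T hT).2.2 hp)).and
      (hQ.eventually_gt_atTop 0))).exists
    have h4 := dio_cover I (insert (T.erase p) (B.erase T)) (l k) (hl0 k) fun r hr => by
      obtain ⟨T0, h5, h6⟩ := hcov r hr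
      by_cases h7 : r = p
      · exact ⟨T', mem_insert_of_mem (mem_erase.2 ⟨hne.symm, hT'⟩), h7 ▸ hp'⟩
      · by_cases h8 : T0 = T
        · exact ⟨_, mem_insert_self _ _, mem_erase.2 ⟨h7, h8 ▸ h6⟩⟩
        · exact ⟨T0, mem_insert_of_mem (mem_erase.2 ⟨h8, h5⟩), h6⟩
    have h5 : ∑ T0 ∈ insert (T.erase p) (B.erase T), ∑ r ∈ T0, l k r ≤
        ∑ r ∈ T.erase p, l k r + ∑ T0 ∈ B.erase T, ∑ r ∈ T0, l k r := by
      by_cases h6 : T.erase p ∈ B.erase T
      · rw [insert_eq_of_mem h6]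
        linarith [sum_nonneg fun r (_ : r ∈ T.erase p) => hl0 k r]
      · rw [sum_insert h6]
    have h6 := add_sum_erase B (fun T0 => ∑ r ∈ T0, l k r) hT
    have h7 := add_sum_erase T (l k) hp
    nlinarith [h1.2.1]
  obtain ⟨p1, hp1⟩ : I.Nonempty := by
    by_contra h1
    rw [not_nonempty_iff_eq_empty] at h1
    obtain ⟨k, h2, h3⟩ := ((hIsum (1 / 2) one_half_pos).and (hQ.eventually_gt_atTop 0)).exists
    rw [h1, sum_empty] at h2
    linarith
  obtain ⟨T1, hT1, hp1T⟩ := hcov p1 hp1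
  obtain ⟨ζ, hζ, hζO, C, hC⟩ := hzN T1 p1 hp1T hp1
  refine hChain K S P U Q l Λ (B.erase T1) z (z ∅) p1 ζ η hSc hΛ hη (fun T hT => ?_) hm
    (fun ε hε => (hkey ε hε).mono fun k hk => hk.1) (hI p1 hp1) hζ hζO ⟨max C 0, ?_⟩
  · obtain ⟨h1, h2⟩ := mem_erase.1 hT
    exact ⟨(hB T h2).1, fun h => disjoint_left.1 (hdis T h2 T1 hT1 h1) h hp1T,
      fun T' hT' => hdis T h2 T' (mem_of_mem_erase hT'),
      fun p hp => ⟨hI p ((hB T h2).2.2 hp), hzN T p hp ((hB T h2).2.2 hp)⟩, (hB T h2).2.1,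
      fun ε hε => (hkey ε hε).mono fun k hk => hk.2.2 T h2⟩
  · filter_upwards [hC, hprod] with k h1 h2
    rw [← mul_prod_erase B _ hT1, mul_left_comm] at h2
    have h3 := congrArg (Int.cast : ℤ → K) h2
    rw [Int.cast_mul, Int.cast_add, Int.cast_one] at h3
    rw [show ζ * ((z ∅ k * ∏ T ∈ B.erase T1, z T k : ℤ) : K) - 1 =
      -(((z T1 k : K) - ζ) * ((z ∅ k * ∏ T ∈ B.erase T1, z T k : ℤ) : K)) + ((v k : ℤ) : K) by
        linear_combination h3]
    refine (P.na p1 _ _).trans (max_le ?_ ?_)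
    · rw [AbsoluteValue.map_neg, map_mul]
      exact ((mul_le_of_le_one_right ((P.ab p1).nonneg _) (ext_int_le P p1 _)).trans h1).trans
        (exp_le_exp.2 (by linarith [le_max_left C 0]))
    · refine (root_dvd P p1 (e := j k p1) (by exact_mod_cast hj k p1)).trans (exp_le_exp.2 ?_)
      change -l k p1 ≤ _
      linarith [le_max_right C 0]

end Pool.Agent.Lib.MP_56f651_co.SP
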