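import Pool.Agent.Lib.MP_56f651_co.SP.St

open Filter Finset Matrix Real

namespace Pool.Agent.Lib.MP_56f651_co.SP

lemma final_had (v : ℕ) [NeZero v] (D : Finset (ZMod v)) (hv : v % 4 = 3)
    (hD : D.card = (v - 1) / 2)
    (hl : ∀ d : ZMod v, d ≠ 0 → ((D ×ˢ D).filter (fun q => q.1 - q.2 = d)).card = (v - 3) / 4) :
    ∃ s : ZMod v → ℤ, Had s := by
  let s : ZMod v → ℤ := fun x => if x ∈ D then -1 else 1
  have e1 : ∀ d, ∑ x, (if x + d ∈ D then (1 : ℤ) else 0) = D.card := fun d => by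
    rw [← Equiv.sum_comp (Equiv.subRight d)]; simp
  have e0 : ∑ x, (if x ∈ D then (1 : ℤ) else 0) = D.card := by simp
  have e2 : (D.card : ℤ) * 2 + 1 = v := by omega
  refine ⟨s, fun x => by simp only [s]; split_ifs <;> simp, ?_, fun d hd => ?_⟩
  · have : ∀ x, s x = 1 - 2 * if x ∈ D then 1 else 0 := fun x => by
      simp only [s]; split_ifs <;> rfl
    simp only [this, sum_sub_distrib, ← mul_sum, e0, sum_const, card_univ, ZMod.card]
    simp only [nsmul_eq_mul]; omega
  · have : ∀ x, s x * s (x + d) = 1 - 2 * (if x ∈ D then 1 else 0) -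
        2 * (if x + d ∈ D then 1 else 0) + 4 * if x + d ∈ D ∧ x ∈ D then 1 else 0 := fun x => by
      simp only [s]; split_ifs <;> simp_all
    have e3 : (univ.filter fun x => x + d ∈ D ∧ x ∈ D).card = (v - 3) / 4 := by
      rw [← hl d hd]
      refine card_nbij' (fun x => (x + d, x)) (fun q => q.2) (fun x hx => ?_)
        (fun q hq => ?_) (fun x _ => by simp) fun q hq => ?_
      · simp only [coe_filter, mem_univ, true_and, Set.mem_ofPred_eq, mem_product] at hx ⊢
        exact ⟨hx, by ring⟩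
      · simp only [coe_filter, mem_univ, true_and, Set.mem_ofPred_eq, mem_product] at hq ⊢
        rw [← hq.2]; simpa using hq.1
      · simp only [coe_filter, Set.mem_ofPred_eq] at hq
        rw [← hq.2]; ext <;> simp
    have e4 : ∑ x, (if x + d ∈ D ∧ x ∈ D then (1 : ℤ) else 0) = ((v - 3) / 4 : ℕ) := by
      rw [sum_boole, e3]
    simp only [this, sum_add_distrib, sum_sub_distrib, ← mul_sum, e1, e0, e4, sum_const, card_univ,
      ZMod.card]
    simp only [nsmul_eq_mul]; omega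

lemma final_log (S : Finset ℕ) (hS : ∀ p ∈ S, p.Prime) {v s : ℕ} (hv : 0 < v) (hs : s ∣ v)
    (hsS : ∀ p : ℕ, p.Prime → p ∣ s → p ∈ S) :
    log s - S.card * (log (∏ p ∈ S, p : ℕ) + (log v - log s)) ≤
      ∑ p : S, ((v.factorization p - Nat.log p (∏ r ∈ v.primeFactors, r) : ℕ) : ℝ) *
        log ((p : ℕ) : ℝ) := by
  obtain ⟨w, rfl⟩ := hs
  have hs0 : 0 < s := Nat.pos_of_mul_pos_right hv |> fun h => h
  have hw0 : 0 < w := Nat.pos_of_ne_zero fun h => by simp [h] at hv
  have hR : 0 < ∏ p ∈ S, p := Finset.prod_pos fun p hp => (hS p hp).pos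
  set ρ := ∏ r ∈ (s * w).primeFactors, r with hρ
  have hρ0 : 0 < ρ := Finset.prod_pos fun r hr => (Nat.prime_of_mem_primeFactors hr).pos
  have h1 : ρ ∣ (∏ p ∈ S, p) * w := by
    refine Finset.prod_primes_dvd _ (fun r hr => (Nat.prime_of_mem_primeFactors hr).prime)
      fun r hr => ?_
    have hr' := Nat.prime_of_mem_primeFactors hr
    rcases (Nat.Prime.dvd_mul hr').1 (Nat.dvd_of_mem_primeFactors hr) with h | h
    · exact (Finset.dvd_prod_of_mem _ (hsS r hr' h)).mul_right _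
    · exact h.mul_left _
  have h2 : log ρ ≤ log (∏ p ∈ S, p : ℕ) + (log (s * w : ℕ) - log s) := by
    have h3 : (ρ : ℝ) ≤ ((∏ p ∈ S, p : ℕ) : ℝ) * w := by
      exact_mod_cast Nat.le_of_dvd (Nat.mul_pos hR hw0) h1
    refine (log_le_log (by exact_mod_cast hρ0) h3).trans (le_of_eq ?_)
    rw [log_mul (by exact_mod_cast hR.ne') (by exact_mod_cast hw0.ne'), Nat.cast_mul,
      log_mul (by exact_mod_cast hs0.ne') (by exact_mod_cast hw0.ne')]
    ring
  have h4 : log s ≤ ∑ p : S, ((s * w).factorization p : ℝ) * log ((p : ℕ) : ℝ) := by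
    have h5 : s ∣ ∏ p ∈ S, p ^ (s * w).factorization p := by
      conv_lhs => rw [← Nat.prod_factorization_pow_eq_self hs0.ne']
      rw [Finsupp.prod]
      refine (Finset.prod_dvd_prod_of_dvd _ _ fun p _ => pow_dvd_pow p
        ((Nat.factorization_le_iff_dvd hs0.ne' hv.ne').2 (dvd_mul_right s w) p)).trans
        (Finset.prod_dvd_prod_of_subset _ _ _ fun p hp => ?_)
      exact hsS p (Nat.prime_of_mem_primeFactors hp) (Nat.dvd_of_mem_primeFactors hp)
    have h6 : 0 < ∏ p ∈ S, p ^ (s * w).factorization p :=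
      Finset.prod_pos fun p hp => pow_pos (hS p hp).pos _
    have h7 : (s : ℝ) ≤ ∏ p ∈ S, (p : ℝ) ^ (s * w).factorization p := by
      exact_mod_cast Nat.le_of_dvd h6 h5
    refine (log_le_log (by exact_mod_cast hs0) h7).trans (le_of_eq ?_)
    rw [log_prod fun p hp => pow_ne_zero _ (by exact_mod_cast (hS p hp).ne_zero),
      ← Finset.sum_coe_sort S]
    exact Finset.sum_congr rfl fun p _ => log_pow _ _
  have h8 : ∀ p : S, ((s * w).factorization p : ℝ) * log ((p : ℕ) : ℝ) - log ρ ≤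
      (((s * w).factorization p - Nat.log p ρ : ℕ) : ℝ) * log ((p : ℕ) : ℝ) := fun p => by
    have hp := hS p p.2
    have a1 : (((p : ℕ) : ℝ)) ^ Nat.log p ρ ≤ ρ := by exact_mod_cast Nat.pow_log_le_self p hρ0.ne'
    have a2 := log_le_log (pow_pos (by exact_mod_cast hp.pos) _) a1
    rw [log_pow] at a2
    have a3 : ((s * w).factorization p : ℝ) - Nat.log p ρ ≤
        (((s * w).factorization p - Nat.log p ρ : ℕ) : ℝ) := by
      rw [sub_le_iff_le_add]
      exact_mod_cast le_tsub_add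
    have a4 : 0 ≤ log ((p : ℕ) : ℝ) := log_nonneg (by exact_mod_cast hp.one_le)
    nlinarith [mul_le_mul_of_nonneg_right a3 a4]
  have h9 := Finset.sum_le_sum fun p (_ : p ∈ (univ : Finset S)) => h8 p
  rw [Finset.sum_sub_distrib, Finset.sum_const, Finset.card_univ, Fintype.card_coe,
    nsmul_eq_mul] at h9
  have h10 : (S.card : ℝ) * log ρ ≤ S.card * (log (∏ p ∈ S, p : ℕ) + (log (s * w : ℕ) - log s)) :=
    mul_le_mul_of_nonneg_left h2 (Nat.cast_nonneg _)
  linarith

theorem final (hDio : StDio) (hDS : StDS) (y : ℕ) :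
    ∃ δ : ℝ, 0 < δ ∧ {v : ℕ | v % 4 = 3 ∧
      (∃ D : Finset (ZMod v), D.card = (v - 1) / 2 ∧ ∀ d : ZMod v, d ≠ 0 →
        ((D ×ˢ D).filter (fun q => q.1 - q.2 = d)).card = (v - 3) / 4) ∧
      ∃ s : ℕ, s ∣ v ∧ (∀ p : ℕ, p.Prime → p ∣ s → p ≤ y) ∧ (v : ℝ) ^ (1 - δ) ≤ s}.Finite := by
  by_contra hc
  push Not at hc
  have h1 := fun n : ℕ => (hc (1 / (n + 1)) Nat.one_div_pos_of_nat).exists_gt n
  choose v hv hvn using h1
  let S : Finset ℕ := (range (y + 1)).filter Nat.Prime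
  have hS : ∀ p ∈ S, p.Prime := fun p hp => (mem_filter.1 hp).2
  have hv0 : ∀ n, 0 < v n := fun n => by have := hvn n; omega
  have hodd : ∀ n, Odd (v n) := fun n => by have := (hv n).1; rw [Nat.odd_iff]; omega
  have hvt : Tendsto v atTop atTop := tendsto_atTop_mono (fun n => (hvn n).le) tendsto_id
  have hU : (hyperfilter ℕ : Filter ℕ) ≤ atTop := Nat.hyperfilter_le_atTop
  refine hDio S (∏ p ∈ S, (p - 1)) (hyperfilter ℕ) v
    (fun k p => (v k).factorization p - Nat.log p (∏ r ∈ (v k).primeFactors, r)) hS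
    (Finset.prod_pos fun p hp => by have := (hS p hp).two_le; omega) (hvt.mono_left hU) hodd
    (fun k p => (pow_dvd_pow _ (Nat.sub_le _ _)).trans (Nat.ordProj_dvd _ _)) (fun ε hε => ?_)
    fun k p => ?_
  · refine hU ?_
    have hlog : Tendsto (fun k => log (v k)) atTop atTop :=
      tendsto_log_atTop.comp (tendsto_natCast_atTop_atTop.comp hvt)
    have hδ : ∀ᶠ n : ℕ in atTop, (1 : ℝ) / (n + 1) < ε / 2 / (S.card + 1) :=
      tendsto_one_div_add_atTop_nhds_zero_nat.eventually_lt_const (by positivity)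
    filter_upwards [hδ, (hlog.const_mul_atTop (half_pos hε)).eventually_ge_atTop
      (S.card * log (∏ p ∈ S, p : ℕ))] with k e1 e2
    obtain ⟨s, hs, hsy, hsv⟩ := (hv k).2.2
    have a1 := final_log S hS (hv0 k) hs fun p hp hps =>
      mem_filter.2 ⟨mem_range.2 (Nat.lt_succ_of_le (hsy p hp hps)), hp⟩
    have a0 : (0 : ℝ) < v k := by exact_mod_cast hv0 k
    have a2 := log_le_log (rpow_pos_of_pos a0 _) hsv
    rw [log_rpow a0] at a2
    have a3 : 0 ≤ log (v k) := log_nonneg (by exact_mod_cast hv0 k)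
    rw [lt_div_iff₀ (by positivity)] at e1
    have a4 : (S.card : ℝ) * (log (v k) - log s) ≤ S.card * (1 / (k + 1) * log (v k)) :=
      mul_le_mul_of_nonneg_left (by linarith) (Nat.cast_nonneg _)
    have a5 := mul_le_mul_of_nonneg_right e1.le a3
    refine le_trans ?_ a1
    nlinarith
  · have : NeZero (v k) := ⟨(hv0 k).ne'⟩
    obtain ⟨D, hD, hl⟩ := (hv k).2.1
    obtain ⟨s, hs⟩ := final_had (v k) D (hv k).1 hD hl
    obtain ⟨q, hq, hqv, h⟩ := hDS (v k) s p (hodd k) hs (hS p p.2)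
    refine ⟨q, hq, hqv, ?_⟩
    obtain ⟨c, hc⟩ := Finset.dvd_prod_of_mem (fun p => p - 1) p.2
    rw [hc, pow_mul]
    simpa using h.pow c

end Pool.Agent.Lib.MP_56f651_co.SP
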