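import Pool.Agent.Lib.MP_56f651_co.SP.St

open Finset

namespace Pool.Agent.Lib.MP_56f651_co.SP

lemma mult_ring {R : Type} [CommRing R] (q : R) {Q : ℕ} (hQ : 2 ≤ Q) (σ : R →+* R) (hσq : σ q = q)
    (h1 : ∀ x : R, ∃ r, x ^ Q = x + q * r) (h2 : ∀ x, ∃ c d, σ x = c * x + q * d) (a : ℕ) :
    ∀ x, ∃ c d, σ x = c * x + q ^ a * d := by
  induction a with
  | zero => exact fun x => ⟨0, σ x, by simp⟩
  | succ a ih =>
    intro x
    obtain ⟨r, hr⟩ := h1 x
    obtain ⟨c, d, hcd⟩ := ih r
    obtain ⟨c', d', hcd'⟩ := h2 x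
    let I : Ideal R := Ideal.span {x, q ^ (a + 1)}
    let π := Ideal.Quotient.mk I
    have hx : π x = 0 := Ideal.Quotient.eq_zero_iff_mem.2 (Ideal.subset_span (by simp))
    have hq : π q ^ (a + 1) = 0 := by
      rw [← map_pow]; exact Ideal.Quotient.eq_zero_iff_mem.2 (Ideal.subset_span (by simp))
    have e1 : π q * π r = 0 := by
      have := congrArg π hr
      rw [map_pow, map_add, map_mul, hx, zero_pow (by omega), zero_add] at this
      exact this.symm
    have e2 : π (σ x) ^ Q = π (σ x) := by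
      have := congrArg (fun y => π (σ y)) hr
      simp only [map_pow, map_add, map_mul, hσq, hcd] at this
      rw [this]
      linear_combination π c * e1 + π d * hq
    have e3 : ∀ j : ℕ, π (σ x) ^ Q ^ j = π (σ x) := fun j => by
      induction j with
      | zero => simp
      | succ j ihj => rw [pow_succ, pow_mul, ihj, e2]
    have e4 : π (σ x) = π q * π d' := by rw [hcd', map_add, map_mul, map_mul, hx]; simp
    have e5 : π (σ x) = 0 := by
      rw [← e3 (a + 1), e4, mul_pow, pow_eq_zero_of_le (Nat.lt_pow_self (by omega)).le hq, zero_mul]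
    obtain ⟨u, w, h⟩ := Ideal.mem_span_pair.1 (Ideal.Quotient.eq_zero_iff_mem.1 e5)
    exact ⟨u, w, by rw [← h]; ring⟩

section

variable {v : ℕ}

/-- the substitution of the group ring given by a multiplier -/
noncomputable def sg (t : ZMod v) : AddMonoidAlgebra ℤ (ZMod v) →+* AddMonoidAlgebra ℤ (ZMod v) :=
  AddMonoidAlgebra.mapDomainRingHom ℤ (AddMonoidHom.mulLeft t)

lemma sg_single (t x : ZMod v) (c : ℤ) :
    sg t (AddMonoidAlgebra.single x c) = AddMonoidAlgebra.single (t * x) c := by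
  simp [sg]

lemma sg_frob {q : ℕ} (hq : q.Prime) (f : ℕ) (x : AddMonoidAlgebra ℤ (ZMod v)) :
    ∃ r, x ^ q ^ f = sg ((q : ZMod v) ^ f) x + q * r := by
  induction x using AddMonoidAlgebra.induction_on with
  | of x =>
    refine ⟨0, ?_⟩
    simp [sg_single, AddMonoidAlgebra.single_pow]
  | add x y hx hy =>
    obtain ⟨r, hr⟩ := hx
    obtain ⟨r', hr'⟩ := hy
    obtain ⟨c, hc⟩ := exists_add_pow_prime_pow_eq hq x y f
    exact ⟨r + r' + x * y * c, by rw [hc, hr, hr', map_add]; ring⟩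
  | smul n x hx =>
    obtain ⟨r, hr⟩ := hx
    have : Fact q.Prime := ⟨hq⟩
    obtain ⟨c, hc⟩ : (q : ℤ) ∣ n ^ q ^ f - n := by
      rw [← ZMod.intCast_zmod_eq_zero_iff_dvd]
      simp [ZMod.pow_card_pow]
    have h1 : ((n : AddMonoidAlgebra ℤ (ZMod v))) ^ q ^ f = n + q * c := by
      have := congrArg (Int.cast : ℤ → AddMonoidAlgebra ℤ (ZMod v)) hc
      push_cast at this
      linear_combination this
    refine ⟨n * r + c * x ^ q ^ f, ?_⟩
    rw [zsmul_eq_mul, mul_pow, h1, map_mul, map_intCast]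
    linear_combination (n : AddMonoidAlgebra ℤ (ZMod v)) * hr

lemma sg_one (x : AddMonoidAlgebra ℤ (ZMod v)) : sg 1 x = x := by
  induction x using AddMonoidAlgebra.induction_on with
  | of x => simp [sg_single]
  | add x y hx hy => rw [map_add, hx, hy]
  | smul n x hx => rw [map_zsmul, hx]

lemma sg_mem [NeZero v] {q : ℕ} (hq : q.Prime) (hqv : q.Coprime v) (f a : ℕ)
    (x : AddMonoidAlgebra ℤ (ZMod v)) :
    ∃ c d, sg ((q : ZMod v) ^ f) x = c * x + (q : AddMonoidAlgebra ℤ (ZMod v)) ^ a * d := by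
  have hφ : 0 < v.totient := Nat.totient_pos.2 (NeZero.pos v)
  have h1 : (q : ZMod v) ^ v.totient = 1 := by
    have := (ZMod.natCast_eq_natCast_iff _ _ _).2 (Nat.ModEq.pow_totient hqv)
    simpa using this
  refine mult_ring (q : AddMonoidAlgebra ℤ (ZMod v)) (Q := q ^ v.totient)
    (Nat.one_lt_pow hφ.ne' hq.one_lt) _ (map_natCast _ _) (fun x => ?_) (fun x => ?_) a x
  · obtain ⟨r, hr⟩ := sg_frob hq v.totient x
    exact ⟨r, by rwa [h1, sg_one] at hr⟩
  · obtain ⟨r, hr⟩ := sg_frob hq f x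
    refine ⟨x ^ (q ^ f - 1), -r, ?_⟩
    rw [← pow_succ, Nat.sub_add_cancel (Nat.one_le_pow _ _ hq.pos), hr]
    ring

end

lemma mult_cor {v : ℕ} [NeZero v] (s : ZMod v → ℤ) (y : AddMonoidAlgebra ℤ (ZMod v)) (h : ZMod v) :
    (y * ∑ x, AddMonoidAlgebra.single (-x) (s x)).coeff h = ∑ x, y.coeff (h + x) * s x := by
  simp [mul_sum]

theorem stMult : StMult := by
  intro v _ s t hs ht
  let A : AddMonoidAlgebra ℤ (ZMod v) := ∑ x, AddMonoidAlgebra.single x (s x)
  let A' : AddMonoidAlgebra ℤ (ZMod v) := ∑ x, AddMonoidAlgebra.single (-x) (s x)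
  let G : AddMonoidAlgebra ℤ (ZMod v) := ∑ x, AddMonoidAlgebra.single (-x) 1
  let c : ZMod v → ℤ := fun h => ∑ x, s x * s (t * x - h)
  have hA : ∀ y, A.coeff y = s y := fun y => by simp [A, Finsupp.single_apply]
  have hA' : ∀ y, A'.coeff y = s (-y) := fun y => by
    simp [A', Finsupp.single_apply, neg_eq_iff_eq_neg]
  have hW : A * A' = ((v + 1 : ℕ) : AddMonoidAlgebra ℤ (ZMod v)) - G := by
    ext h
    rw [mult_cor]
    simp only [hA]
    have h1 : G.coeff h = 1 := by simp [G, Finsupp.single_apply, neg_eq_iff_eq_neg]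
    rw [AddMonoidAlgebra.coeff_sub, Finsupp.sub_apply, h1, AddMonoidAlgebra.natCast_def]
    by_cases h0 : h = 0
    · subst h0
      simp [hs.mul_self]
    · rw [AddMonoidAlgebra.coeff_single, Finsupp.single_eq_of_ne h0, zero_sub, ← hs.cor h h0]
      exact sum_congr rfl fun x _ => by rw [add_comm, mul_comm]
  have hc : ∀ h, (sg t A * A').coeff h = c h := fun h => by
    rw [mul_comm]
    simp only [A, map_sum, sg_single, mul_sum]
    simp [hA', c, mul_comm, neg_add_eq_sub]
  have hsum : ∑ h, c h = 1 := by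
    rw [sum_comm]
    simp only [← mul_sum, fun x => Equiv.sum_comp (Equiv.subLeft (t * x)) s |>.trans hs.sum,
      ← Equiv.subLeft_apply, mul_one, hs.sum]
  have hdvd : ∀ h, ((v + 1 : ℕ) : ℤ) ∣ c h + 1 := fun h => by
    rw [Int.natCast_dvd]
    refine (Nat.dvd_iff_prime_pow_dvd_dvd _ _).2 fun q a hq hqa => ?_
    rcases Nat.eq_zero_or_pos a with rfl | ha
    · simp
    have hqv : q ∣ v + 1 := (dvd_pow_self q ha.ne').trans hqa
    obtain ⟨f, hf⟩ := ht q hq hqv
    have hco : q.Coprime v := Nat.Coprime.coprime_dvd_left hqv (by simp)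
    obtain ⟨e, d, hed⟩ := sg_mem hq hco f a A
    obtain ⟨w, hw⟩ := hqa
    have h1 : ∀ h, c h = (q : ℤ) ^ a * (e * w + d * A').coeff h - ∑ x, e.coeff x := fun h => by
      have h2 : sg t A * A' = ((q : ℤ) ^ a) • (e * w + d * A') - e * G := by
        rw [← hf, hed, add_mul, mul_assoc e, hW, hw, zsmul_eq_mul]
        push_cast
        ring
      rw [← hc, h2, AddMonoidAlgebra.coeff_sub, Finsupp.sub_apply, mult_cor (fun _ => 1),
        ← Equiv.sum_comp (Equiv.addLeft h) e.coeff, AddMonoidAlgebra.coeff_smul, Finsupp.smul_apply,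
        smul_eq_mul]
      simp
    have h2 : (q : ℤ) ^ a * w = v + 1 := by exact_mod_cast hw.symm
    have h3 := hsum
    simp only [h1, sum_sub_distrib, ← mul_sum, sum_const, card_univ, ZMod.card, nsmul_eq_mul] at h3
    rw [← Int.natCast_dvd, h1]
    refine ⟨(e * w + d * A').coeff h + ∑ y, (e * w + d * A').coeff y - w * ∑ x, e.coeff x, ?_⟩
    push_cast
    linear_combination (∑ x, e.coeff x) * h2 - h3
  have hle : ∀ h x, s x * s (t * x - h) ≤ 1 ∧ -1 ≤ s x * s (t * x - h) := fun h x => by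
    rcases hs.sq x with h1 | h1 <;> rcases hs.sq (t * x - h) with h2 | h2 <;> simp [h1, h2]
  obtain ⟨g, hg⟩ : ∃ g, c g ≠ -1 := by
    by_contra h1
    push Not at h1
    simp [h1] at hsum
    omega
  have h1 : -(v : ℤ) ≤ c g := by
    simpa using sum_le_sum fun x (_ : x ∈ univ) => (hle g x).2
  have h2 : (v : ℤ) + 1 ≤ c g + 1 := by
    obtain ⟨k, hk⟩ := hdvd g
    push_cast at hk
    have h3 : k ≠ 0 := fun h => hg (by rw [h] at hk; linarith)
    have h4 : 0 ≤ k := by
      by_contra h4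
      nlinarith [Int.natCast_nonneg v]
    have h5 : 1 ≤ k := by omega
    nlinarith [Int.natCast_nonneg v]
  have h3 : ∑ x, (1 - s x * s (t * x - g)) = 0 := by
    refine le_antisymm ?_ (sum_nonneg fun x _ => by linarith [(hle g x).1])
    rw [sum_sub_distrib]
    simp only [sum_const, card_univ, ZMod.card, nsmul_eq_mul, mul_one]
    linarith
  refine ⟨g, fun x => ?_⟩
  have h4 := (sum_eq_zero_iff_of_nonneg fun x _ => by linarith [(hle g x).1]).1 h3 x (mem_univ x)
  linear_combination (-s x) * h4 - s (t * x - g) * hs.mul_self x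

end Pool.Agent.Lib.MP_56f651_co.SP
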