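import Pool.Agent.Lib.MP_56f651_co.SP.St

open Filter Finset Matrix Real

namespace Pool.Agent.Lib.MP_56f651_co.SP

lemma root_ab (K : Type) [Field K] [NumberField K] (p : ℕ) (hp : p.Prime) :
    ∃ ab : AbsoluteValue K ℝ, (∀ z : ℤ, ab (z : K) = (padicNorm p (z : ℚ) : ℝ)) ∧
      ∀ a b, ab (a + b) ≤ max (ab a) (ab b) := by
  have : Fact p.Prime := ⟨hp⟩
  let f : K →ₐ[ℚ] PadicAlgCl p := IsAlgClosed.lift
  refine ⟨NumberField.place (f : K →+* PadicAlgCl p), fun z => ?_, fun a b => ?_⟩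
  · rw [NumberField.place_apply, map_intCast, ← Padic.eq_padicNorm, ← PadicAlgCl.norm_extends]
    simp
  · simp only [NumberField.place_apply, map_add]
    exact IsUltrametricDist.norm_add_le_max _ _

lemma root_dvd {K : Type} [Field K] {S : Finset ℕ} (P : Pl K S) (p : S) {z : ℤ} {e : ℕ}
    (h : ((p : ℕ) : ℤ) ^ e ∣ z) : P.ab p (z : K) ≤ exp (-(e * log ((p : ℕ) : ℝ))) := by
  have hp := P.prime p p.2
  have : Fact (p : ℕ).Prime := ⟨hp⟩
  have h1 := (padicNorm.dvd_iff_norm_le (p := p) (n := e) (z := z)).1 (by exact_mod_cast h)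
  rw [P.int, Real.exp_neg, exp_nat_mul, exp_log (by exact_mod_cast hp.pos)]
  have h2 : ((padicNorm p (z : ℚ) : ℚ) : ℝ) ≤ ((((p : ℕ) : ℚ) ^ (-(e : ℤ)) : ℚ) : ℝ) := by
    exact_mod_cast h1
  simpa using h2

theorem stRoot : StRoot := by
  intro S Λ hS hΛ
  classical
  have : NeZero Λ := ⟨hΛ.ne'⟩
  let K := CyclotomicField Λ ℚ
  have : NeZero ((Λ : ℕ) : ℚ) := ⟨by exact_mod_cast hΛ.ne'⟩
  have hcy : IsCyclotomicExtension {Λ} ℚ K := CyclotomicField.isCyclotomicExtension Λ ℚ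
  have hμ := IsCyclotomicExtension.zeta_spec Λ ℚ K
  choose ab hab hna using fun p : S => root_ab K p (hS p p.2)
  let P : Pl K S := ⟨hS, ab, hab, hna⟩
  refine ⟨K, inferInstance, inferInstance, P, fun U j p z hj hz => ?_⟩
  let R := Polynomial.nthRootsFinset Λ (1 : K)
  have hprod : ∀ y : K, y ^ Λ - 1 = ∏ ζ ∈ R, (y - ζ) := fun y => by
    have := congrArg (Polynomial.eval y) (Polynomial.X_pow_sub_one_eq_prod hΛ hμ)
    simpa [Polynomial.eval_prod] using this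
  have hR : R.Nonempty := ⟨1, Polynomial.one_mem_nthRootsFinset hΛ⟩
  have h1 : ∀ᶠ k in U, ∃ ζ : R, ∀ ξ ∈ R, P.ab p ((z k : K) - ζ) ≤ P.ab p ((z k : K) - ξ) :=
    Eventually.of_forall fun k => by
      obtain ⟨ζ, h1, h2⟩ := exists_min_image R (fun ξ => P.ab p ((z k : K) - ξ)) hR
      exact ⟨⟨ζ, h1⟩, h2⟩
  obtain ⟨⟨ζ, hζ⟩, h2⟩ := Ultrafilter.eventually_exists_iff.1 h1
  have hζ1 : ζ ^ Λ = 1 := (Polynomial.mem_nthRootsFinset hΛ 1).1 hζ
  have hc : 0 < ∏ ξ ∈ R.erase ζ, P.ab p (ζ - ξ) :=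
    prod_pos fun ξ hξ => (P.ab p).pos (sub_ne_zero.2 (ne_of_mem_erase hξ).symm)
  have hT : ∀ᶠ k in U, P.ab p ((z k : K) - ζ) ≤
      exp (-log (∏ ξ ∈ R.erase ζ, P.ab p (ζ - ξ)) - j k p * log ((p : ℕ) : ℝ)) := by
    filter_upwards [hz, h2] with k e1 e2
    have e3 := root_dvd P p e1
    rw [Int.cast_sub, Int.cast_pow, Int.cast_one, hprod, map_prod, ← mul_prod_erase R _ hζ] at e3
    have e4 : ∏ ξ ∈ R.erase ζ, P.ab p (ζ - ξ) ≤ ∏ ξ ∈ R.erase ζ, P.ab p ((z k : K) - ξ) :=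
      prod_le_prod (fun _ _ => (P.ab p).nonneg _) fun ξ hξ => by
        have e5 := P.na p (-((z k : K) - ζ)) ((z k : K) - ξ)
        rw [AbsoluteValue.map_neg, show -((z k : K) - ζ) + ((z k : K) - ξ) = ζ - ξ by ring] at e5
        exact e5.trans (max_le (e2 ξ (mem_of_mem_erase hξ)) le_rfl)
    rw [sub_eq_add_neg (-log _), exp_add, Real.exp_neg, exp_log hc, inv_mul_eq_div, le_div_iff₀ hc]
    exact (mul_le_mul_of_nonneg_left e4 ((P.ab p).nonneg _)).trans e3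
  refine ⟨ζ, hζ1, ⟨IsIntegral.of_pow hΛ (hζ1 ▸ isIntegral_one), fun ε hε => ?_⟩, _, hT⟩
  have hl : 0 < log ((p : ℕ) : ℝ) := log_pos (by exact_mod_cast (hS p p.2).one_lt)
  have h3 : Tendsto (fun k => (j k p : ℝ) * log ((p : ℕ) : ℝ)) U atTop :=
    (tendsto_natCast_atTop_atTop.comp hj).atTop_mul_const hl
  obtain ⟨k, e1, e2⟩ := (hT.and (h3.eventually_gt_atTop
    (-log (∏ ξ ∈ R.erase ζ, P.ab p (ζ - ξ)) - log ε))).exists
  refine ⟨z k, ?_⟩
  rw [AbsoluteValue.map_sub]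
  refine e1.trans_lt ?_
  rw [← lt_log_iff_exp_lt hε]
  linarith

end Pool.Agent.Lib.MP_56f651_co.SP
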