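import Pool.Agent.Lib.MP_56f651_co.SP.Ext

open Filter Finset Matrix Real

namespace Pool.Agent.Lib.MP_56f651_co.SP

theorem stSmall (hSub : StSub) : StSmall := by
  intro K _ _ S P U Q l ι _ _ x F p G ε η hSc hI ⟨L, A, u0, u, hO, hL, hF, h⟩ hp hεη hl hG ⟨C, hC⟩
  classical
  by_contra hG0
  obtain ⟨j0, hj0⟩ := Function.ne_iff.1 hG0
  refine hSub K S P U Q ι x ∅ ((η - ε) / 2) hSc.1 (by linarith)
    ⟨Function.update L p (updateRow 1 j0 G), |A| + |C| + 1, u0,
      fun k r i => if r = p ∧ i = j0 then C - l k p else u k r i, fun r i j => ?_, fun r => ?_,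
      by simp, ?_⟩ hI
  · by_cases hr : r = p
    · subst hr
      rw [Function.update_self, updateRow_apply]
      split_ifs
      · exact hG j
      · exact ext_ok_one P r i j
    · rw [Function.update_of_ne hr]; exact hO r i j
  · by_cases hr : r = p
    · subst hr
      have h1 : G = ∑ k, G k • (1 : Matrix ι ι K) k := by
        ext j; simp [Matrix.one_apply]
      rw [Function.update_self, h1, det_updateRow_sum]
      simpa using hj0
    · rw [Function.update_of_ne hr]; exact hL r
  · filter_upwards [h, hl, hC, hSc.1.eventually_ge_atTop 1,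
      (hSc.1.const_mul_atTop (half_pos (sub_pos.2 hεη))).eventually_ge_atTop C]
      with k hk hlk hCk hQ1 hQ2
    obtain ⟨a1, a2, a3, a4, a5⟩ := hk
    have hAQ : A * Q k ≤ |A| * Q k := mul_le_mul_of_nonneg_right (le_abs_self _) (by linarith)
    have hA0 : 0 ≤ |A| * Q k := by positivity
    have hCQ : |C| ≤ |C| * Q k := le_mul_of_one_le_right (abs_nonneg _) hQ1
    have hC0 : 0 ≤ |C| := abs_nonneg _
    refine ⟨fun i => (a1 i).trans (by simp only [add_mul]; linarith), fun r i => ?_, ?_, a4,
      fun r i => ?_⟩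
    · simp only [add_mul]
      split_ifs
      · have b2 := hSc.2 k p
        have b3 := abs_le.1 (le_refl |C|)
        rw [abs_le]; constructor <;> linarith
      · exact (a2 r i).trans (by linarith)
    · have b1 : ∀ (r : S) i, (if r = p ∧ i = j0 then C - l k p else u k r i) =
          u k r i + if r = p then if i = j0 then C - l k p else 0 else 0 := fun r i => by
        by_cases hr : r = p
        · subst hr
          by_cases hi : i = j0 <;> simp [hi, (hF r hp).2]
        · simp [hr]
      simp only [b1, sum_add_distrib, sum_ite_irrel, sum_ite_eq', mem_univ, if_true,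
        sum_const_zero]
      linarith
    · by_cases hr : r = p
      · subst hr
        rw [Function.update_self]
        by_cases hi : i = j0
        · subst hi
          simpa [Matrix.mulVec, dotProduct] using hCk
        · have := a5 r i
          rw [(hF r hp).1] at this
          simpa [Matrix.mulVec, dotProduct, updateRow_ne hi, hi] using this
      · rw [Function.update_of_ne hr]
        simpa [hr] using a5 r i

lemma small_ne {K : Type} [Field K] [CharZero K] {ζ : K} {Λ : ℕ} (hΛ : 0 < Λ) (h : ζ ^ Λ = 1)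
    {c : ℤ} (hc : 2 ≤ c) : (c : K) ≠ ζ := fun h1 => by
  have h2 : c ^ Λ = 1 := by
    rw [← h1] at h
    exact_mod_cast h
  exact absurd h2 (one_lt_pow₀ (by linarith) hΛ.ne').ne'

/-- the pair of one and `z` has no relation unless `z` is constant -/
lemma small_indep (U : Ultrafilter ℕ) (z : ℕ → ℤ) (h : ∀ c : ℤ, ¬ ∀ᶠ k in U, z k = c) :
    Indep U fun k => Sum.elim (fun _ : Unit => (1 : ℤ)) fun _ : Unit => z k * 1 := by
  intro a ha
  simp only [Fintype.sum_sum_type, univ_unique, sum_singleton, Sum.elim_inl, Sum.elim_inr,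
    mul_one, PUnit.default_eq_unit] at ha
  obtain ⟨k0, hk0⟩ := ha.exists
  have h1 : a (Sum.inr ()) = 0 := by
    by_contra h1
    exact h (z k0) (ha.mono fun k hk => mul_left_cancel₀ h1 (by linarith))
  ext i
  rcases i with i | i
  · simpa [h1] using hk0
  · exact h1

theorem stRid (hSub : StSub) (hExt : StExt) : StRid := by
  intro K _ _ S P U Q l Λ T z η hSc hΛ hη ⟨p, hp⟩ hT hz ε hε
  by_contra hc
  rw [← Ultrafilter.eventually_not] at hc
  have h1 := hExt K S P U Q l Λ Unit _ univ T z 0 (-ε) (ε / 2) hSc (ext_base P U Q) (subset_univ _)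
    (fun p hp => (hT p hp).2) ((hz.and hc).mono fun k hk => ⟨by linarith [hk.1], by
      linarith [not_le.1 hk.2]⟩) (half_pos hε)
  rw [show 2 * 0 + (Fintype.card Unit : ℝ) * -ε + ε / 2 = -(ε / 2) by simp; ring] at h1
  refine hSub K S P U Q _ _ _ _ hSc.1 (half_pos hε) h1 (small_indep U z fun c hzc => ?_)
  obtain ⟨hl, ζ, hζ, -, C, hC⟩ := hT p hp
  obtain ⟨k0, h2, h3⟩ := (hz.and hzc).exists
  have h4 : 0 < P.ab p ((c : K) - ζ) := (P.ab p).pos (sub_ne_zero.2 (small_ne hΛ hζ (h3 ▸ h2)))
  obtain ⟨k, e1, e2, e3, e4⟩ := (hl.and (hC.and (hzc.and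
    ((hSc.1.const_mul_atTop hη).eventually_gt_atTop (C - log (P.ab p ((c : K) - ζ))))))).exists
  simp only [e3] at e2
  have := (log_le_iff_le_exp h4).2 e2
  linarith

end Pool.Agent.Lib.MP_56f651_co.SP
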