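import Pool.Agent.Lib.MP_56f651_co.Basic

open Filter Finset Matrix Real

namespace Pool.Agent.Lib.MP_56f651_co.SP

/-- an ultrametric absolute value of `K` above each prime of `S` -/
structure Pl (K : Type) [Field K] (S : Finset ℕ) where
  prime : ∀ p ∈ S, p.Prime
  ab : S → AbsoluteValue K ℝ
  int : ∀ (p : S) (z : ℤ), ab p (z : K) = (padicNorm p (z : ℚ) : ℝ)
  na : ∀ (p : S) (a b : K), ab p (a + b) ≤ max (ab p a) (ab p b)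

section

variable {K : Type} [Field K] {S : Finset ℕ}

/-- an algebraic integer that is a limit of rational integers at `p` -/
def Pl.Ok (P : Pl K S) (p : S) (y : K) : Prop :=
  IsIntegral ℤ y ∧ ∀ ε : ℝ, 0 < ε → ∃ z : ℤ, P.ab p (y - z) < ε

/-- `y k` has size at most `C * exp (-l k p)` at `p` -/
def Pl.Tiny (P : Pl K S) (U : Ultrafilter ℕ) (l : ℕ → S → ℝ) (p : S) (y : ℕ → K) : Prop :=
  ∃ C : ℝ, ∀ᶠ k in U, P.ab p (y k) ≤ exp (C - l k p)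

/-- `z k` is close at `p` to a root of unity of order dividing `Λ` -/
def Pl.Near (P : Pl K S) (U : Ultrafilter ℕ) (l : ℕ → S → ℝ) (Λ : ℕ) (p : S) (z : ℕ → ℤ) : Prop :=
  ∃ ζ : K, ζ ^ Λ = 1 ∧ P.Ok p ζ ∧ P.Tiny U l p fun k => (z k : K) - ζ

/-- no fixed linear relation -/
def Indep (U : Ultrafilter ℕ) {ι : Type} [Fintype ι] (x : ℕ → ι → ℤ) : Prop :=
  ∀ a : ι → ℤ, (∀ᶠ k in U, ∑ i, a i * x k i = 0) → a = 0

/-- linear forms at all places, the coordinates at infinity and at the primes of `F`, whose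
logarithmic bounds add up to at most `ε * Q k` -/
def Pl.Data (P : Pl K S) (U : Ultrafilter ℕ) (Q : ℕ → ℝ) {ι : Type} [Fintype ι] [DecidableEq ι]
    (x : ℕ → ι → ℤ) (F : Finset S) (ε : ℝ) : Prop :=
  ∃ (L : S → Matrix ι ι K) (A : ℝ) (u0 : ℕ → ι → ℝ) (u : ℕ → S → ι → ℝ),
    (∀ p i j, P.Ok p (L p i j)) ∧ (∀ p, (L p).det ≠ 0) ∧
    (∀ p ∈ F, L p = 1 ∧ ∀ k i, u k p i = 0) ∧
    ∀ᶠ k in U, (∀ i, |u0 k i| ≤ A * Q k) ∧ (∀ p i, |u k p i| ≤ A * Q k) ∧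
      ∑ i, u0 k i + ∑ p, ∑ i, u k p i ≤ ε * Q k ∧ (∀ i, |(x k i : ℝ)| ≤ exp (u0 k i)) ∧
      ∀ p i, P.ab p ((L p *ᵥ fun j => (x k j : K)) i) ≤ exp (u k p i)

end

/-- the scale and the precisions -/
def Scale {S : Finset ℕ} (U : Ultrafilter ℕ) (Q : ℕ → ℝ) (l : ℕ → S → ℝ) : Prop :=
  Tendsto Q U atTop ∧ ∀ k p, 0 ≤ l k p ∧ l k p ≤ Q k

/-- the Subspace Theorem with algebraic coefficients at the finite places -/
def StSub : Prop :=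
  ∀ (K : Type) [Field K] [NumberField K] (S : Finset ℕ) (P : Pl K S) (U : Ultrafilter ℕ)
    (Q : ℕ → ℝ) (ι : Type) [Fintype ι] [DecidableEq ι] (x : ℕ → ι → ℤ) (F : Finset S) (δ : ℝ),
    Tendsto Q U atTop → 0 < δ → P.Data U Q x F (-δ) → ¬ Indep U x

/-- doubling the family by a factor `z` -/
def StExt : Prop :=
  ∀ (K : Type) [Field K] (S : Finset ℕ) (P : Pl K S) (U : Ultrafilter ℕ) (Q : ℕ → ℝ)
    (l : ℕ → S → ℝ) (Λ : ℕ) (ι : Type) [Fintype ι] [DecidableEq ι] (x : ℕ → ι → ℤ)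
    (F T : Finset S) (z : ℕ → ℤ) (ε ε' ε'' : ℝ), Scale U Q l → P.Data U Q x F ε → T ⊆ F →
    (∀ p ∈ T, P.Near U l Λ p z) →
    (∀ᶠ k in U, 1 ≤ z k ∧ log (z k) ≤ ∑ p ∈ T, l k p + ε' * Q k) → 0 < ε'' →
    P.Data U Q (fun k => Sum.elim (x k) fun i => z k * x k i) (F \ T)
      (2 * ε + Fintype.card ι * ε' + ε'')

/-- no form is tiny at a free prime -/
def StSmall : Prop :=
  ∀ (K : Type) [Field K] [NumberField K] (S : Finset ℕ) (P : Pl K S) (U : Ultrafilter ℕ)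
    (Q : ℕ → ℝ) (l : ℕ → S → ℝ) (ι : Type) [Fintype ι] [DecidableEq ι] (x : ℕ → ι → ℤ)
    (F : Finset S) (p : S) (G : ι → K) (ε η : ℝ), Scale U Q l → Indep U x → P.Data U Q x F ε →
    p ∈ F → ε < η → (∀ᶠ k in U, η * Q k ≤ l k p) → (∀ i, P.Ok p (G i)) →
    (P.Tiny U l p fun k => ∑ i, G i * (x k i : K)) → G = 0

/-- the theorem of Ridout for integer approximants -/
def StRid : Prop :=
  ∀ (K : Type) [Field K] [NumberField K] (S : Finset ℕ) (P : Pl K S) (U : Ultrafilter ℕ)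
    (Q : ℕ → ℝ) (l : ℕ → S → ℝ) (Λ : ℕ) (T : Finset S) (z : ℕ → ℤ) (η : ℝ), Scale U Q l →
    0 < Λ → 0 < η → T.Nonempty → (∀ p ∈ T, (∀ᶠ k in U, η * Q k ≤ l k p) ∧ P.Near U l Λ p z) →
    (∀ᶠ k in U, 2 ≤ z k) →
    ∀ ε : ℝ, 0 < ε → ∀ᶠ k in U, ∑ p ∈ T, l k p ≤ log (z k) + ε * Q k

/-- the product of the other blocks is not close to a root of unity -/
def StChain : Prop :=
  ∀ (K : Type) [Field K] [NumberField K] (S : Finset ℕ) (P : Pl K S) (U : Ultrafilter ℕ)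
    (Q : ℕ → ℝ) (l : ℕ → S → ℝ) (Λ : ℕ) (B : Finset (Finset S)) (z : Finset S → ℕ → ℤ)
    (m : ℕ → ℤ) (p1 : S) (ζ : K) (η : ℝ), Scale U Q l → 0 < Λ → 0 < η →
    (∀ T ∈ B, T.Nonempty ∧ p1 ∉ T ∧ (∀ T' ∈ B, T ≠ T' → Disjoint T T') ∧
      (∀ p ∈ T, (∀ᶠ k in U, η * Q k ≤ l k p) ∧ P.Near U l Λ p (z T)) ∧
      (∀ᶠ k in U, 2 ≤ z T k) ∧
      ∀ ε : ℝ, 0 < ε → ∀ᶠ k in U, log (z T k) ≤ ∑ p ∈ T, l k p + ε * Q k) →
    (∀ᶠ k in U, 2 ≤ m k) → (∀ ε : ℝ, 0 < ε → ∀ᶠ k in U, log (m k) ≤ ε * Q k) →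
    (∀ᶠ k in U, η * Q k ≤ l k p1) → ζ ^ Λ = 1 → P.Ok p1 ζ →
    (P.Tiny U l p1 fun k => ζ * ((m k * ∏ T ∈ B, z T k : ℤ) : K) - 1) → False

/-- a field with all roots of unity of order dividing `Λ` -/
def StRoot : Prop :=
  ∀ (S : Finset ℕ) (Λ : ℕ), (∀ p ∈ S, p.Prime) → 0 < Λ →
    ∃ (K : Type) (_ : Field K) (_ : NumberField K) (P : Pl K S),
      ∀ (U : Ultrafilter ℕ) (j : ℕ → S → ℕ) (p : S) (z : ℕ → ℤ),
        Tendsto (fun k => j k p) U atTop →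
        (∀ᶠ k in U, ((p : ℕ) : ℤ) ^ j k p ∣ z k ^ Λ - 1) →
        P.Near U (fun k r => j k r * log ((r : ℕ) : ℝ)) Λ p z

/-- the Diophantine statement -/
def StDio : Prop :=
  ∀ (S : Finset ℕ) (Λ : ℕ) (U : Ultrafilter ℕ) (v : ℕ → ℕ) (j : ℕ → S → ℕ),
    (∀ p ∈ S, p.Prime) → 0 < Λ → Tendsto v U atTop → (∀ k, Odd (v k)) →
    (∀ k (p : S), (p : ℕ) ^ j k p ∣ v k) →
    (∀ ε : ℝ, 0 < ε → ∀ᶠ k in U, (1 - ε) * log (v k) ≤ ∑ p : S, j k p * log ((p : ℕ) : ℝ)) →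
    (∀ k (p : S), ∃ q : ℕ, q.Prime ∧ q ∣ v k + 1 ∧ q ^ Λ ≡ 1 [MOD (p : ℕ) ^ j k p]) → False

/-- the multiplier theorem -/
def StMult : Prop :=
  ∀ (v : ℕ) [NeZero v] (s : ZMod v → ℤ) (t : ZMod v), Had s →
    (∀ q : ℕ, q.Prime → q ∣ v + 1 → ∃ f : ℕ, (q : ZMod v) ^ f = t) →
    ∃ g : ZMod v, ∀ x, s (t * x - g) = s x

/-- the arithmetic condition given by a difference set -/
def StDS : Prop :=
  ∀ (v : ℕ) [NeZero v] (s : ZMod v → ℤ) (p : ℕ), Odd v → Had s → p.Prime →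
    ∃ q : ℕ, q.Prime ∧ q ∣ v + 1 ∧
      q ^ (p - 1) ≡ 1 [MOD p ^ (v.factorization p - Nat.log p (∏ r ∈ v.primeFactors, r))]

end Pool.Agent.Lib.MP_56f651_co.SP
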