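import Pool.Agent.Shared.SubspaceAlg.Static

/-! The reduced basis and the gap, with constants that depend on the matrices at the finite
places only through the sizes of their determinants. -/

open Filter Matrix Real

namespace Pool.Agent.Lib.MP_56f651_co.SP

open Pool.Agent.Subspace Pool.Agent.Shared.SubspaceAlg

theorem box_basisU (S : Finset ℕ) (hS : ∀ p ∈ S, p.Prime) (N : ℕ)
    (L0 : Matrix (Fin N) (Fin N) ℝ) (hL0 : L0.det ≠ 0) :
    ∃ b : ℝ, 1 ≤ b ∧ ∀ (L : S → Matrix (Fin N) (Fin N) ℤ) (u : Option S → Fin N → ℝ)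
      (x : Fin N → ℤ),
      (∀ i, |(L0 *ᵥ fun j => (x j : ℝ)) i| ≤ exp (u none i)) →
      (∀ p i, plAbs S hS (some p) ((L p *ᵥ x) i : ℤ) ≤ exp (u (some p) i)) →
      ∃ (G : Matrix (Fin N) (Fin N) ℤ) (t : Fin N → ℤ) (u' : S → Fin N → ℝ) (l : Fin N → ℝ)
        (pm : Equiv.Perm (Fin N)), G.det ≠ 0 ∧ x = G *ᵥ t ∧
        (∀ p i, u' p i ≤ u (some p) i ∧ |u' p i| ≤ |u (some p) i| + b) ∧
        (∀ p i j, plAbs S hS (some p) ((L p * G) i j : ℤ) ≤ exp (u' p i)) ∧
        (∀ i j, |(L0 * G.map (Int.castRingHom ℝ)) (pm i) j| ≤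
          exp (u none (pm i) + min (l i) (l j) + b)) ∧
        ∑ j, l j + ∑ i, u none i + ∑ p, ∑ i, u' p i ≤ b ∧
        ∀ j, |(t j : ℝ)| ≤ exp (b - l j) := by
  obtain ⟨C, hC, hred⟩ := lattice_reduction N
  have hd1 : (0 : ℝ) < |L0.det| := abs_pos.2 hL0
  have hlC : 0 ≤ log C := log_nonneg hC
  have hld : 0 ≤ |log (|L0.det|)| := abs_nonneg _
  have hld' : log (|L0.det|) ≤ |log (|L0.det|)| := le_abs_self _
  have hF1 : (1 : ℝ) ≤ N.factorial * C ^ (N + 1) :=
    one_le_mul_of_one_le_of_one_le (by exact_mod_cast N.factorial_pos) (one_le_pow₀ hC)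
  have hlF : 0 ≤ log (N.factorial * C ^ (N + 1)) := log_nonneg hF1
  have hlS : 0 ≤ ∑ p : S, log ((p : ℕ) : ℝ) :=
    Finset.sum_nonneg fun p _ => (log_pos_of_mem hS p).le
  set b := 1 + log C + |log (|L0.det|)| + log (N.factorial * C ^ (N + 1)) +
    ∑ p : S, log ((p : ℕ) : ℝ) with hb
  refine ⟨b, by linarith, fun L u x hx0' hx => ?_⟩
  let e : S → Fin N → ℕ := fun p i => ⌈-u (some p) i / log ((p : ℕ) : ℝ)⌉₊
  let Λ0 : AddSubgroup (Fin N → ℤ) :=
    { carrier := {y | ∀ (p : S) i, ((p : ℕ) : ℤ) ^ e p i ∣ (L p *ᵥ y) i}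
      add_mem' := fun {y z} hy hz p i => by
        rw [Matrix.mulVec_add]; exact dvd_add (hy p i) (hz p i)
      zero_mem' := fun p i => by simp
      neg_mem' := fun {y} hy p i => by
        rw [Matrix.mulVec_neg]; exact (dvd_neg.2 (hy p i)) }
  let φ : (Fin N → ℤ) →+ (Fin N → ℝ) :=
    { toFun := fun y i => exp (-u none i) * (L0 *ᵥ fun j => (y j : ℝ)) i
      map_zero' := by ext i; simp [Matrix.mulVec, dotProduct]
      map_add' := fun y z => by
        ext i; simp [Matrix.mulVec, dotProduct, mul_add, Finset.sum_add_distrib] }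
  have hφ : ∀ y i, φ y i = exp (-u none i) * (L0 *ᵥ fun j => (y j : ℝ)) i := fun _ _ => rfl
  have hφ' : ∀ y i, (L0 *ᵥ fun j => (y j : ℝ)) i = exp (u none i) * φ y i := by
    intro y i; rw [hφ, ← mul_assoc, ← exp_add]; simp
  have hinj : Function.Injective φ := by
    intro y z h
    have h1 : (fun j => (y j : ℝ)) = fun j => (z j : ℝ) := by
      apply Matrix.mulVec_injective_of_det_ne_zero hL0
      ext i
      rw [hφ', hφ', h]
    ext i
    exact_mod_cast congrFun h1 i
  have hfin : ∀ r : ℝ, {x | x ∈ Λ0.map φ ∧ ‖x‖ ≤ r}.Finite := by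
    intro r
    refine ((finite_boxR L0 hL0 fun i => exp (u none i) * r).image φ).subset ?_
    rintro _ ⟨⟨y, -, rfl⟩, hr⟩
    refine ⟨y, fun i => ?_, rfl⟩
    rw [hφ', abs_mul, abs_of_pos (exp_pos _)]
    refine mul_le_mul_of_nonneg_left ?_ (exp_pos _).le
    have : |φ y i| ≤ ‖φ y‖ := by simpa using norm_le_pi_norm (φ y) i
    exact this.trans hr
  have hspan : ∀ w : Fin N → ℝ, (∀ x ∈ Λ0.map φ, w ⬝ᵥ x = 0) → w = 0 := by
    intro w hw
    let P : ℤ := ∏ k : S × Fin N, ((k.1 : ℕ) : ℤ) ^ e k.1 k.2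
    have hP : P ≠ 0 := Finset.prod_ne_zero_iff.2 fun k _ =>
      pow_ne_zero _ (by exact_mod_cast (hS k.1 k.1.2).ne_zero)
    have h0 : (fun i => w i * exp (-u none i)) ᵥ* L0 = 0 := by
      ext j
      have hy : P • (Pi.single j 1 : Fin N → ℤ) ∈ Λ0 := by
        intro p k
        rw [Matrix.mulVec_smul]
        exact Dvd.dvd.mul_right (Finset.dvd_prod_of_mem
          (fun k : S × Fin N => ((k.1 : ℕ) : ℤ) ^ e k.1 k.2) (Finset.mem_univ (p, k))) _
      have h1 := hw _ ⟨_, hy, rfl⟩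
      have h2 : ∀ i, (L0 *ᵥ fun k => ((P • (Pi.single j 1 : Fin N → ℤ)) k : ℝ)) i = L0 i j * P := by
        intro i
        simp only [Matrix.mulVec, dotProduct]
        rw [Finset.sum_eq_single j (fun k _ hk => by simp [hk]) (by simp)]
        simp
      simp only [dotProduct, hφ, h2] at h1
      have h3 : (∑ i, w i * exp (-u none i) * L0 i j) * P = 0 := by
        rw [Finset.sum_mul, ← h1]
        exact Finset.sum_congr rfl fun i _ => by ring
      have h4 := (mul_eq_zero.1 h3).resolve_right (by exact_mod_cast hP)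
      simpa [Matrix.vecMul, dotProduct] using h4
    have h5 := Matrix.eq_zero_of_vecMul_eq_zero hL0 h0
    ext i
    exact (mul_eq_zero.1 (congrFun h5 i)).resolve_right (exp_pos _).ne'
  obtain ⟨v, pm, lam, hv, hgen, hpos, -, hbd, hdet⟩ := hred _ hfin hspan
  choose g hg hgv using hv
  let G : Matrix (Fin N) (Fin N) ℤ := Matrix.of fun i j => g j i
  have hLG : ∀ (M : Matrix (Fin N) (Fin N) ℤ) i j, (M * G) i j = (M *ᵥ g j) i := fun _ _ _ => rfl
  have hLG0 : ∀ i j, (L0 * G.map (Int.castRingHom ℝ)) i j = (L0 *ᵥ fun k => (g j k : ℝ)) i :=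
    fun _ _ => rfl
  have hGt : ∀ t : Fin N → ℤ, G *ᵥ t = ∑ j, t j • g j := by
    intro t; ext i; simp [G, Matrix.mulVec, dotProduct, mul_comm]
  have hgen0 : ∀ y ∈ Λ0, ∃ t, G *ᵥ t = y ∧ φ y = ∑ j, t j • v j := by
    intro y hy
    obtain ⟨t, ht⟩ := hgen _ ⟨y, hy, rfl⟩
    refine ⟨t, hinj ?_, ht⟩
    rw [hGt, ht, map_sum]; simp only [map_zsmul, hgv]
  have hdv : (Matrix.of v).det = exp (-∑ i, u none i) * (L0.det * G.det) := by
    have h1 : (Matrix.of v)ᵀ = Matrix.of fun i j =>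
        exp (-u none i) * (L0 * G.map (Int.castRingHom ℝ)) i j := by
      ext i j
      simp only [Matrix.transpose_apply, Matrix.of_apply, hLG0, ← hgv, hφ]
    rw [← Matrix.det_transpose, h1, Matrix.det_mul_column, ← exp_sum, Finset.sum_neg_distrib]
    congr 1
    have := (Int.castRingHom ℝ).map_det G
    rw [RingHom.mapMatrix_apply] at this
    change (L0 * G.map (Int.castRingHom ℝ)).det = _
    rw [Matrix.det_mul, ← this]; simp
  have hprod : 0 < ∏ j, lam j := Finset.prod_pos fun j _ => hpos j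
  have hG : G.det ≠ 0 := by
    intro h
    rw [hdv, h] at hdet; simp at hdet; linarith
  have hx0 : x ∈ Λ0 := fun p i => dvd_of_plAbs_le p (hx p i)
  obtain ⟨t, ht, hφt⟩ := hgen0 x hx0
  have hlogp : ∀ p : S, log ((p : ℕ) : ℝ) ≤ b := by
    intro p
    have := Finset.single_le_sum (f := fun p : S => log ((p : ℕ) : ℝ))
      (fun p _ => (log_pos_of_mem hS p).le) (Finset.mem_univ p)
    linarith
  refine ⟨G, t, fun p i => -(e p i * log ((p : ℕ) : ℝ)), fun j => log (lam j), pm, hG, ht.symm,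
    fun p i => ?_, fun p i j => plAbs_le_of_dvd p (hg j p i), fun i j => ?_, ?_, fun j => ?_⟩
  · have hp := log_pos_of_mem hS p
    have h1 : -u (some p) i / log ((p : ℕ) : ℝ) ≤ e p i := Nat.le_ceil _
    rw [div_le_iff₀ hp] at h1
    refine ⟨by linarith, ?_⟩
    have h2 : (e p i : ℝ) ≤ |u (some p) i| / log ((p : ℕ) : ℝ) + 1 := by
      have h3 : e p i ≤ ⌈|u (some p) i| / log ((p : ℕ) : ℝ)⌉₊ :=
        Nat.ceil_mono (div_le_div_of_nonneg_right (neg_le_abs _) hp.le)
      have h4 := Nat.ceil_lt_add_one (div_nonneg (abs_nonneg (u (some p) i)) hp.le)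
      have h5 : (e p i : ℝ) ≤ ⌈|u (some p) i| / log ((p : ℕ) : ℝ)⌉₊ := by exact_mod_cast h3
      linarith
    rw [abs_neg, abs_of_nonneg (by positivity)]
    have h6 := mul_le_mul_of_nonneg_right h2 hp.le
    rw [add_mul, div_mul_cancel₀ _ hp.ne', one_mul] at h6
    linarith [hlogp p]
  · rw [hLG0, hφ', hgv, abs_mul, abs_of_pos (exp_pos _), add_assoc, exp_add]
    refine mul_le_mul_of_nonneg_left ((hbd i j).trans ?_) (exp_pos _).le
    have h1 : min (lam i) (lam j) = exp (min (log (lam i)) (log (lam j))) := by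
      rw [exp_monotone.map_min, exp_log (hpos i), exp_log (hpos j)]
    have h2 : C ≤ exp b := by
      rw [← exp_log (by linarith : 0 < C), exp_le_exp]; linarith
    rw [h1, exp_add, mul_comm]
    exact mul_le_mul_of_nonneg_left h2 (exp_pos _).le
  · have h1 := abs_det_le_prod (κ := S × Fin N) (fun k => (k.1 : ℕ) ^ e k.1 k.2)
      (fun k => pow_pos (hS k.1 k.1.2).pos _)
      (fun k => (Pi.evalAddMonoidHom (fun _ => ℤ) k.2).comp
        (Matrix.mulVecLin (L k.1)).toAddMonoidHom) G hG fun y hy => by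
        obtain ⟨t, ht, -⟩ := hgen0 y fun p i => by simpa using hy (p, i)
        exact ⟨t, ht⟩
    have h2 : ∏ k : S × Fin N, (((k.1 : ℕ) ^ e k.1 k.2 : ℕ) : ℝ) =
        exp (-∑ p : S, ∑ i, -(e p i * log ((p : ℕ) : ℝ))) := by
      rw [← Finset.sum_product', ← Finset.sum_neg_distrib, exp_sum]
      refine Finset.prod_congr rfl fun k _ => ?_
      rw [neg_neg, exp_nat_mul, exp_log (by exact_mod_cast (hS k.1 k.1.2).pos)]; simp
    rw [h2] at h1
    have h3 : ∏ j, lam j = exp (∑ j, log (lam j)) := by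
      rw [exp_sum]; exact Finset.prod_congr rfl fun j _ => (exp_log (hpos j)).symm
    have h4 : C * |(Matrix.of v).det| ≤ exp (log C + -∑ i, u none i + log (|L0.det|) +
        -∑ p : S, ∑ i, -(e p i * log ((p : ℕ) : ℝ))) := by
      rw [hdv, exp_add, exp_add, exp_add, exp_log (by linarith), exp_log hd1, abs_mul,
        abs_mul, abs_of_pos (exp_pos _), mul_assoc, mul_assoc]
      gcongr
    have h5 := exp_le_exp.1 ((h3 ▸ hdet).trans h4)
    linarith
  · have h1 := cramer_bound v lam C hC hpos (fun j i => by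
      have := hbd (pm.symm i) j
      rw [Equiv.apply_symm_apply] at this
      exact this.trans (mul_le_mul_of_nonneg_left (min_le_right _ _) (by linarith))) hdet
      (fun j => (t j : ℝ)) (fun i => by
        have h2 : (∑ j, (t j : ℝ) • v j) = φ x := by
          rw [hφt]; simp only [Int.cast_smul_eq_zsmul]
        have h3 := hx0' i
        rw [h2, hφ, abs_mul, abs_of_pos (exp_pos _), Real.exp_neg, inv_mul_le_iff₀ (exp_pos _),
          mul_one]
        exact h3) j
    have h2 : (N.factorial : ℝ) * C ^ (N + 1) ≤ exp b := by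
      rw [← exp_log (by linarith : (0 : ℝ) < N.factorial * C ^ (N + 1)), exp_le_exp]; linarith
    rw [exp_sub, exp_log (hpos j), le_div_iff₀ (hpos j)]
    exact h1.trans h2

theorem static_stepU (S : Finset ℕ) (hS : ∀ p ∈ S, p.Prime) (N : ℕ)
    (L0 : Matrix (Fin N) (Fin N) ℝ) (hL0 : L0.det ≠ 0)
    (c : S → ℝ) (hcp : ∀ p, 0 < c p) :
    ∃ B : ℝ, 1 ≤ B ∧ ∀ (L : S → Matrix (Fin N) (Fin N) ℤ) (a g : ℝ) (u : Option S → Fin N → ℝ)
      (x : Fin N → ℤ), (∀ p, plAbs S hS (some p) ((L p).det : ℤ) = c p) →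
      (∀ v i, |u v i| ≤ a) → B < g → ∑ v, ∑ i, u v i ≤ -(N ^ 2 * g + B) →
      (∀ i, |(L0 *ᵥ fun j => (x j : ℝ)) i| ≤ exp (u none i)) →
      (∀ p i, plAbs S hS (some p) ((L p *ᵥ x) i : ℤ) ≤ exp (u (some p) i)) →
      ∃ T : Finset (Fin N), T.Nonempty ∧ ∃ (G : Matrix (Fin N) (Fin N) ℤ) (t : Fin N → ℤ)
        (w : Option S → Fin N → ℝ) (T' : Finset (Fin N)), T'.card = T.card ∧ G.det ≠ 0 ∧
        x = G *ᵥ t ∧ (∀ j ∈ T, t j = 0) ∧ (∀ v i, |w v i| ≤ B * (a + B)) ∧
        ∑ v, ∑ i, w v i ≤ B ∧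
        (∀ i j, |(L0 * G.map (Int.castRingHom ℝ)) i j| ≤ exp (w none i)) ∧
        (∀ p i j, plAbs S hS (some p) ((L p * G) i j : ℤ) ≤ exp (w (some p) i)) ∧
        ∀ i ∈ T', ∀ j ∉ T, |(L0 * G.map (Int.castRingHom ℝ)) i j| ≤ exp (w none i - g) := by
  obtain ⟨b0, hb0, hbox⟩ := box_basisU S hS N L0 hL0
  have hab0 : 0 < |L0.det| := abs_pos.2 hL0
  obtain ⟨c0, hc0⟩ : ∃ c0 : ℝ, c0 = 1 + ∑ i, ∑ k, |L0⁻¹ i k| := ⟨_, rfl⟩
  have hc00 : 0 ≤ ∑ i, ∑ k, |L0⁻¹ i k| :=
    Finset.sum_nonneg fun _ _ => Finset.sum_nonneg fun _ _ => abs_nonneg _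
  have hc1 : 1 ≤ c0 := by linarith
  have hlc : 0 ≤ log c0 := log_nonneg hc1
  obtain ⟨b, hbd⟩ : ∃ b : ℝ, b = b0 + log c0 := ⟨_, rfl⟩
  have hb : 1 ≤ b := by linarith
  have hbb : b0 ≤ b := by linarith
  obtain ⟨β, hβ⟩ : ∃ β : ℝ, β = |log (N.factorial / |L0.det|)| +
    ∑ p : S, |log (N.factorial / c p)| := ⟨_, rfl⟩
  have hβ0 : 0 ≤ β := hβ ▸ add_nonneg (abs_nonneg _) (Finset.sum_nonneg fun _ _ => abs_nonneg _)
  have hN0 : (0 : ℝ) ≤ N := Nat.cast_nonneg _
  have hs0 : (0 : ℝ) ≤ S.card := Nat.cast_nonneg _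
  obtain ⟨K, hK⟩ : ∃ K : ℝ, K = 3 + 2 * N + S.card * N := ⟨_, rfl⟩
  have hsN : (0 : ℝ) ≤ S.card * N := by positivity
  have hK1 : 1 ≤ K := by linarith
  have hKb : K ≤ K * b := by nlinarith
  have hKb' : (N + 1) * b ≤ K * b := by nlinarith
  have hNb : 0 ≤ N * b := by positivity
  refine ⟨K * b + β, by linarith, fun L a g u x hLc hu hg hsum hx0 hx => ?_⟩
  have hab : ∀ p : S, 0 < plAbs S hS (some p) ((L p).det : ℤ) := fun p => (hLc p).symm ▸ hcp p
  simp only [← hLc] at hβ
  obtain ⟨G, t, u', l, pm, hG, hxG, hu', hp, hr, hl, ht⟩ := hbox L u x hx0 hx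
  replace hl : ∑ j, l j + ∑ i, u none i + ∑ p, ∑ i, u' p i ≤ b := hl.trans hbb
  replace ht : ∀ j, |(t j : ℝ)| ≤ exp (b - l j) := fun j =>
    (ht j).trans (exp_le_exp.2 (by linarith))
  have hN : Nonempty (Fin N) := by
    by_contra hc
    rw [not_nonempty_iff] at hc
    simp only [Finset.univ_eq_empty, Finset.sum_empty, Finset.sum_const_zero] at hsum
    nlinarith [sq_nonneg (N : ℝ)]
  have ha : 0 ≤ a := (abs_nonneg _).trans (hu none hN.some)
  let w : Option S → Fin N → ℝ := fun v =>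
    Option.rec (fun i => u none i + l (pm.symm i) + b) u' v
  have hw0 : ∀ i, w none i = u none i + l (pm.symm i) + b := fun _ => rfl
  have hw1 : ∀ p, w (some p) = u' p := fun _ => rfl
  have hr0 : ∀ i j, |(L0 * G.map (Int.castRingHom ℝ)) i j| ≤
      exp (u none i + min (l (pm.symm i)) (l j) + b0) := by
    intro i j
    have := hr (pm.symm i) j
    rwa [Equiv.apply_symm_apply] at this
  have hr' : ∀ i j, |(L0 * G.map (Int.castRingHom ℝ)) i j| ≤
      exp (u none i + min (l (pm.symm i)) (l j) + b) := fun i j =>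
    (hr0 i j).trans (exp_le_exp.2 (by linarith))
  have hall0 : ∀ i j, |(L0 * G.map (Int.castRingHom ℝ)) i j| ≤ exp (w none i) := by
    intro i j
    refine (hr' i j).trans (exp_le_exp.2 ?_)
    rw [hw0]; linarith [min_le_left (l (pm.symm i)) (l j)]
  have hall : ∀ p i j, plAbs S hS (some p) ((L p * G) i j : ℤ) ≤ exp (w (some p) i) := hp
  have hwsum : ∑ v, ∑ i, w v i = ∑ j, l j + ∑ i, u none i + ∑ p, ∑ i, u' p i + N * b := by
    rw [Fintype.sum_option]
    simp only [hw0, hw1, Finset.sum_add_distrib, Equiv.sum_comp pm.symm l, Finset.sum_const,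
      Finset.card_univ, Fintype.card_fin, nsmul_eq_mul]
    ring
  -- product formula
  have hpf : 0 ≤ β + ∑ v, ∑ i, w v i := by
    have h1 : ∀ p : S, plAbs S hS (some p) (G.det : ℤ) ≤
        exp (|log (N.factorial / plAbs S hS (some p) ((L p).det : ℤ))| + ∑ i, w (some p) i) := by
      intro p
      have h2 := abv_det_le (plAbs S hS (some p)) (L p * G) (∏ i, exp (w (some p) i)) fun σ => by
        rw [← Equiv.prod_comp σ fun i => exp (w (some p) i)]
        exact Finset.prod_le_prod (fun a _ => (plAbs S hS (some p)).nonneg _) fun a _ => hall _ _ _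
      rw [Matrix.det_mul, Int.cast_mul, map_mul, Fintype.card_fin, ← exp_sum] at h2
      have h3 : (N.factorial : ℝ) / plAbs S hS (some p) ((L p).det : ℤ) ≤
          exp |log (N.factorial / plAbs S hS (some p) ((L p).det : ℤ))| :=
        (le_exp_log _).trans (exp_le_exp.2 (le_abs_self _))
      rw [exp_add]
      refine le_trans ?_ (mul_le_mul_of_nonneg_right h3 (exp_pos _).le)
      rw [div_mul_eq_mul_div, le_div_iff₀ (hab p), mul_comm]
      exact h2
    have h0 : plAbs S hS none (G.det : ℤ) ≤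
        exp (|log (N.factorial / |L0.det|)| + ∑ i, w none i) := by
      have h2 := abv_det_le_rows AbsoluteValue.abs (L0 * G.map (Int.castRingHom ℝ))
        (fun i => exp (w none i)) hall0
      have h5 := (Int.castRingHom ℝ).map_det G
      rw [RingHom.mapMatrix_apply] at h5
      rw [Matrix.det_mul, ← h5, Fintype.card_fin, ← exp_sum, AbsoluteValue.abs_apply,
        abs_mul] at h2
      have h3 : (N.factorial : ℝ) / |L0.det| ≤ exp |log (N.factorial / |L0.det|)| :=
        (le_exp_log _).trans (exp_le_exp.2 (le_abs_self _))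
      rw [exp_add, plAbs_none_int]
      refine le_trans ?_ (mul_le_mul_of_nonneg_right h3 (exp_pos _).le)
      rw [div_mul_eq_mul_div, le_div_iff₀ hab0, mul_comm]
      exact h2
    have h4 := one_le_prod_plAbs (hS := hS) G.det hG
    rw [Fintype.prod_option] at h4
    have h6 := h4.trans (mul_le_mul h0
      (Finset.prod_le_prod (fun p _ => (plAbs S hS (some p)).nonneg _) fun p _ => h1 p)
      (Finset.prod_nonneg fun p _ => (plAbs S hS (some p)).nonneg _) (exp_pos _).le)
    rw [← exp_sum, ← exp_add, one_le_exp_iff, Finset.sum_add_distrib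
      (f := fun p : S => |log (N.factorial / plAbs S hS (some p) ((L p).det : ℤ))|)] at h6
    rw [Fintype.sum_option, hβ]
    linarith
  have hsum' : ∑ i, u none i + ∑ p, ∑ i, u' p i ≤ ∑ v, ∑ i, u v i := by
    rw [Fintype.sum_option]
    gcongr with p _ i _
    exact (hu' p i).1
  have hbig : ∃ j, N * g ≤ l j := by
    have : ∑ _j : Fin N, N * g ≤ ∑ j, l j := by
      rw [Finset.sum_const, Finset.card_univ, Fintype.card_fin, nsmul_eq_mul]
      nlinarith
    obtain ⟨j, -, hj⟩ := Finset.exists_le_of_sum_le Finset.univ_nonempty this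
    exact ⟨j, hj⟩
  obtain ⟨j0, hj0⟩ := hbig
  obtain ⟨T, hT, hT1, hT2⟩ := exists_gap l (by linarith : 0 < g) j0 hj0
  -- lower bounds for the minima
  have hlow : ∀ j, -(a + b) ≤ l j := by
    intro j
    obtain ⟨i, hi⟩ : ∃ i, G i j ≠ 0 := by
      by_contra hc
      push Not at hc
      exact hG (Matrix.det_eq_zero_of_column_eq_zero j hc)
    have h1 : (1 : ℝ) ≤ |(G i j : ℝ)| := by exact_mod_cast Int.one_le_abs hi
    have h2 : (G i j : ℝ) = (L0⁻¹ * (L0 * G.map (Int.castRingHom ℝ))) i j := by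
      rw [← Matrix.mul_assoc, Matrix.nonsing_inv_mul _ (isUnit_iff_ne_zero.2 hL0), Matrix.one_mul]
      rfl
    have h3 : |(G i j : ℝ)| ≤ c0 * exp (a + l j + b0) := by
      rw [h2, Matrix.mul_apply]
      refine (Finset.abs_sum_le_sum_abs _ _).trans ?_
      calc ∑ k, |L0⁻¹ i k * (L0 * G.map (Int.castRingHom ℝ)) k j|
          ≤ ∑ k, |L0⁻¹ i k| * exp (a + l j + b0) := Finset.sum_le_sum fun k _ => by
            rw [abs_mul]
            refine mul_le_mul_of_nonneg_left ((hr0 k j).trans (exp_le_exp.2 ?_)) (abs_nonneg _)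
            linarith [min_le_right (l (pm.symm k)) (l j), (abs_le.1 (hu none k)).2]
        _ ≤ c0 * exp (a + l j + b0) := by
            rw [← Finset.sum_mul]
            refine mul_le_mul_of_nonneg_right ?_ (exp_pos _).le
            have := Finset.single_le_sum (f := fun i => ∑ k, |L0⁻¹ i k|)
              (fun i _ => Finset.sum_nonneg fun _ _ => abs_nonneg _) (Finset.mem_univ i)
            linarith
    have h4 : c0 * exp (a + l j + b0) = exp (log c0 + (a + l j + b0)) := by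
      rw [exp_add (log c0), exp_log (by linarith)]
    have h5 := one_le_exp_iff.1 (h1.trans (h3.trans h4.le))
    linarith
  have hu'' : ∀ p i, |u' p i| ≤ a + b := fun p i => by linarith [(hu' p i).2, hu (some p) i]
  have hup : ∀ j, l j ≤ (K - 1) * (a + b) := by
    intro j
    have h1 : l j + (a + b) ≤ ∑ k, (l k + (a + b)) :=
      Finset.single_le_sum (f := fun k => l k + (a + b)) (fun k _ => by linarith [hlow k])
        (Finset.mem_univ j)
    rw [Finset.sum_add_distrib, Finset.sum_const, Finset.card_univ, Fintype.card_fin,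
      nsmul_eq_mul] at h1
    have h2 : ∑ _i : Fin N, -(a + b) ≤ ∑ i, u none i :=
      Finset.sum_le_sum fun i _ => by linarith [(abs_le.1 (hu none i)).1]
    have h3 : ∑ _p : S, ∑ _i : Fin N, -(a + b) ≤ ∑ p, ∑ i, u' p i :=
      Finset.sum_le_sum fun p _ => Finset.sum_le_sum fun i _ => (abs_le.1 (hu'' p i)).1
    simp only [Finset.sum_const, Finset.card_univ, Fintype.card_fin, nsmul_eq_mul,
      Fintype.card_coe] at h2 h3
    rw [hK]
    nlinarith
  have hKK : K * (a + b) ≤ (K * b + β) * (a + (K * b + β)) := by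
    have h1 : b ≤ K * b + β := by nlinarith
    exact mul_le_mul (by linarith) (by linarith) (by linarith) (by linarith)
  refine ⟨T, hT, G, t, w, T.map pm.toEmbedding, Finset.card_map _, hG, hxG, fun j hj => ?_,
    fun v i => le_trans ?_ hKK, by rw [hwsum]; linarith, hall0, hall, fun i hi j hj => ?_⟩
  · have h1 : |(t j : ℝ)| < 1 := (ht j).trans_lt (by
      rw [exp_lt_one_iff]; linarith [hT1 j hj])
    have h2 : |t j| < 1 := by exact_mod_cast h1
    exact Int.abs_lt_one_iff.1 h2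
  · rcases v with _ | p
    · rw [hw0, abs_le]
      have h1 := abs_le.1 (hu none i)
      have h2 : 2 * (a + b) ≤ K * (a + b) :=
        mul_le_mul_of_nonneg_right (by linarith) (by linarith)
      constructor <;> linarith [hlow (pm.symm i), hup (pm.symm i)]
    · rw [hw1]
      exact (hu'' p i).trans (by nlinarith)
  · refine (hr' i j).trans (exp_le_exp.2 ?_)
    rw [Finset.mem_map_equiv] at hi
    rw [hw0]
    linarith [min_le_right (l (pm.symm i)) (l j), hT2 j hj _ hi]

end Pool.Agent.Lib.MP_56f651_co.SP
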