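import Pool.Agent.Lib.MP_56f651_co.SP.St
import Pool.Agent.Lib.MP_56f651_co.SP.Static
import Pool.Agent.Shared.SubspaceAlg.Main

open Filter Matrix Real

namespace Pool.Agent.Lib.MP_56f651_co.SP

open Pool.Agent.Subspace Pool.Agent.Shared.SubspaceAlg

section

variable {K : Type} [Field K] {S : Finset ℕ} (P : Pl K S) (p : S)

lemma sub_int_le (z : ℤ) : P.ab p (z : K) ≤ 1 := by
  have : Fact (p : ℕ).Prime := ⟨P.prime p p.2⟩
  rw [P.int]
  exact_mod_cast padicNorm.of_int z

lemma sub_sum_le {α : Type} (s : Finset α) (f : α → K) {e : ℝ} (he : 0 ≤ e)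
    (h : ∀ a ∈ s, P.ab p (f a) ≤ e) : P.ab p (∑ a ∈ s, f a) ≤ e := by
  classical
  induction s using Finset.induction_on with
  | empty => simpa using he
  | insert a s ha ih =>
    rw [Finset.sum_insert ha]
    exact (P.na p _ _).trans (max_le (h a (Finset.mem_insert_self _ _))
      (ih fun b hb => h b (Finset.mem_insert_of_mem hb)))

lemma sub_prod_le {α : Type} (s : Finset α) (f g : α → K) {e : ℝ} (he : 0 ≤ e)
    (hf : ∀ a, P.ab p (f a) ≤ 1) (hg : ∀ a, P.ab p (g a) ≤ 1)
    (h : ∀ a, P.ab p (f a - g a) ≤ e) : P.ab p (∏ a ∈ s, f a - ∏ a ∈ s, g a) ≤ e := by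
  classical
  induction s using Finset.induction_on with
  | empty => simpa using he
  | insert a s ha ih =>
    rw [Finset.prod_insert ha, Finset.prod_insert ha,
      show f a * ∏ b ∈ s, f b - g a * ∏ b ∈ s, g b =
        f a * (∏ b ∈ s, f b - ∏ b ∈ s, g b) + (f a - g a) * ∏ b ∈ s, g b by ring]
    refine (P.na p _ _).trans (max_le ?_ ?_)
    · rw [map_mul]
      exact (mul_le_of_le_one_left ((P.ab p).nonneg _) (hf a)).trans ih
    · rw [map_mul, map_prod]
      exact (mul_le_of_le_one_right ((P.ab p).nonneg _)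
        (Finset.prod_le_one (fun b _ => (P.ab p).nonneg _) fun b _ => hg b)).trans (h a)

lemma sub_ok_le {y : K} (h : P.Ok p y) : P.ab p y ≤ 1 := by
  obtain ⟨z, hz⟩ := h.2 1 one_pos
  have := P.na p (y - z) z
  rw [sub_add_cancel] at this
  exact this.trans (max_le hz.le (sub_int_le P p z))

lemma sub_det_le {N : ℕ} (A B : Matrix (Fin N) (Fin N) K) {e : ℝ} (he : 0 ≤ e)
    (hA : ∀ i j, P.ab p (A i j) ≤ 1) (hB : ∀ i j, P.ab p (B i j) ≤ 1)
    (h : ∀ i j, P.ab p (A i j - B i j) ≤ e) : P.ab p (A.det - B.det) ≤ e := by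
  rw [Matrix.det_apply', Matrix.det_apply', ← Finset.sum_sub_distrib]
  refine sub_sum_le P p _ _ he fun σ _ => ?_
  rw [← mul_sub, map_mul]
  exact (mul_le_of_le_one_left ((P.ab p).nonneg _) (sub_int_le P p _)).trans
    (sub_prod_le P p _ _ _ he (fun i => hA _ _) (fun i => hB _ _) fun i => h _ _)

lemma sub_row_le {N : ℕ} (r : Fin N → K) (r' y : Fin N → ℤ) {e : ℝ} (he : 0 ≤ e)
    (h : ∀ j, P.ab p (r j - r' j) ≤ e) :
    P.ab p (∑ j, r j * (y j : K) - ((∑ j, r' j * y j : ℤ) : K)) ≤ e := by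
  push_cast
  rw [← Finset.sum_sub_distrib]
  refine sub_sum_le P p _ _ he fun j _ => ?_
  rw [← sub_mul, map_mul]
  exact (mul_le_of_le_one_right ((P.ab p).nonneg _) (sub_int_le P p _)).trans (h j)

lemma sub_le_of_sub {a b : K} {e : ℝ} (h1 : P.ab p (a - b) ≤ e) (h2 : P.ab p b ≤ e) :
    P.ab p a ≤ e := by
  have := P.na p (a - b) b
  rw [sub_add_cancel] at this
  exact this.trans (max_le h1 h2)

end

theorem static_stepK {K : Type} [Field K] {S : Finset ℕ} (P : Pl K S) (N : ℕ)
    (L : S → Matrix (Fin N) (Fin N) K) (hO : ∀ p i j, P.Ok p (L p i j))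
    (hL : ∀ p, (L p).det ≠ 0) :
    ∃ B : ℝ, 1 ≤ B ∧ ∀ (a g : ℝ) (u : Option S → Fin N → ℝ) (x : Fin N → ℤ),
      (∀ v i, |u v i| ≤ a) → B < g → ∑ v, ∑ i, u v i ≤ -(N ^ 2 * g + B) →
      (∀ i, |(x i : ℝ)| ≤ exp (u none i)) →
      (∀ p i, P.ab p ((L p *ᵥ fun j => (x j : K)) i) ≤ exp (u (some p) i)) →
      ∃ T : Finset (Fin N), T.Nonempty ∧ ∃ (G : Matrix (Fin N) (Fin N) ℤ) (t : Fin N → ℤ)
        (w : Option S → Fin N → ℝ) (T' : Finset (Fin N)), T'.card = T.card ∧ G.det ≠ 0 ∧
        x = G *ᵥ t ∧ (∀ j ∈ T, t j = 0) ∧ (∀ v i, |w v i| ≤ B * (a + B)) ∧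
        ∑ v, ∑ i, w v i ≤ B ∧ (∀ i j, |(G i j : ℝ)| ≤ exp (w none i)) ∧
        (∀ p i j, P.ab p ((L p * G.map (Int.castRingHom K)) i j) ≤ exp (w (some p) i)) ∧
        ∀ i ∈ T', ∀ j ∉ T, |(G i j : ℝ)| ≤ exp (w none i - g) := by
  have hc : ∀ p, 0 < P.ab p (L p).det := fun p => (P.ab p).pos (hL p)
  obtain ⟨B, hB, hst⟩ := static_stepU S P.prime N 1 (by simp) (fun p => P.ab p (L p).det) hc
  refine ⟨B, hB, fun a g u x hu hg hs hx0 hx => ?_⟩
  have hex : ∀ p i j, ∃ z : ℤ, P.ab p (L p i j - z) <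
      min (min (exp (-a)) (exp (-(B * (a + B))))) (P.ab p (L p).det / 2) := fun p i j =>
    (hO p i j).2 _ (lt_min (lt_min (exp_pos _) (exp_pos _)) (half_pos (hc p)))
  choose M hM using hex
  have hpl : ∀ (p : S) (z : ℤ), plAbs S P.prime (some p) (z : ℚ) = P.ab p (z : K) :=
    fun p z => (P.int p z).symm
  have hdet : ∀ p : S, plAbs S P.prime (some p) ((Matrix.of (M p)).det : ℤ) =
      P.ab p (L p).det := fun p => by
    have h1 := (Int.castRingHom K).map_det (Matrix.of (M p))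
    rw [RingHom.mapMatrix_apply, eq_intCast] at h1
    have h2 := sub_det_le P p (L p) ((Matrix.of (M p)).map (Int.castRingHom K))
      (half_pos (hc p)).le (fun i j => sub_ok_le P p (hO p i j)) (fun i j => sub_int_le P p _)
      fun i j => ((hM p i j).trans_le (min_le_right _ _)).le
    rw [← h1] at h2
    rw [hpl]
    have h3 := P.na p ((L p).det - ((Matrix.of (M p)).det : ℤ)) ((Matrix.of (M p)).det : ℤ)
    rw [sub_add_cancel] at h3
    have h4 := P.na p (-((L p).det - ((Matrix.of (M p)).det : ℤ))) (L p).det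
    rw [neg_sub, sub_add_cancel, ← neg_sub, AbsoluteValue.map_neg] at h4
    have h5 := hc p
    rcases le_max_iff.1 h3 with h6 | h6
    · linarith
    · exact le_antisymm (h4.trans (max_le (by linarith) le_rfl)) h6
  obtain ⟨T, hT, G, t, w, T', h1, h2, h3, h4, h5, h6, h7, h8, h9⟩ :=
    hst (fun p => Matrix.of (M p)) a g u x hdet hu hg hs (fun i => by simpa using hx0 i)
      fun p i => by
        have e1 : exp (-a) ≤ exp (u (some p) i) := exp_le_exp.2 (abs_le.1 (hu _ i)).1
        have e2 := sub_row_le P p (L p i) (M p i) x (exp_pos (-a)).le fun j =>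
          ((hM p i j).trans_le ((min_le_left _ _).trans (min_le_left _ _))).le
        rw [hpl]
        refine sub_le_of_sub P p (b := ∑ j, L p i j * (x j : K)) ?_ (hx p i)
        rw [AbsoluteValue.map_sub]
        exact e2.trans e1
  refine ⟨T, hT, G, t, w, T', h1, h2, h3, h4, h5, h6, fun i j => by simpa using h7 i j,
    fun p i j => ?_, fun i hi j hj => by simpa using h9 i hi j hj⟩
  have e1 : exp (-(B * (a + B))) ≤ exp (w (some p) i) := exp_le_exp.2 (abs_le.1 (h5 _ i)).1
  have e2 := sub_row_le P p (L p i) (M p i) (fun k => G k j) (exp_pos (-(B * (a + B)))).le fun k =>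
    ((hM p i k).trans_le ((min_le_left _ _).trans (min_le_right _ _))).le
  have e3 := h8 p i j
  rw [hpl] at e3
  exact sub_le_of_sub P p (e2.trans e1) e3

theorem subspace_fin {K : Type} [Field K] [NumberField K] {S : Finset ℕ} (P : Pl K S) (N : ℕ)
    (L : S → Matrix (Fin N) (Fin N) K) (hO : ∀ p i j, P.Ok p (L p i j))
    (hL : ∀ p, (L p).det ≠ 0)
    (U : Ultrafilter ℕ) (q : ℕ → ℝ) (hq : Tendsto q U atTop) (A δ : ℝ) (hδ : 0 < δ)
    (x : ℕ → Fin N → ℤ) (u : ℕ → Option S → Fin N → ℝ)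
    (h : ∀ᶠ k in U, (∀ v i, |u k v i| ≤ A * q k) ∧ ∑ v, ∑ i, u k v i ≤ -δ * q k ∧
      (∀ i, |(x k i : ℝ)| ≤ exp (u k none i)) ∧
      ∀ p i, P.ab p ((L p *ᵥ fun j => (x k j : K)) i) ≤ exp (u k (some p) i)) :
    ∃ ζ : Fin N → ℚ, ζ ≠ 0 ∧ ∀ᶠ k in U, ζ ⬝ᵥ (fun j => (x k j : ℚ)) = 0 := by
  have hS := P.prime
  obtain ⟨B, hB, hstat⟩ := static_stepK P N L hO hL
  let φ : K →ₐ[ℚ] ℂ := IsAlgClosed.lift
  let ab : Option S → AbsoluteValue K ℝ := fun v =>
    Option.rec (NumberField.place (φ : K →+* ℂ)) P.ab v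
  have hab : ∀ v (z : ℤ), ab v (z : K) = plAbs S hS v (z : ℚ) := fun v z => by
    rcases v with _ | p
    · rw [plAbs_none_int]
      show ‖(φ : K →+* ℂ) (z : K)‖ = _
      rw [map_intCast, Complex.norm_intCast]
    · exact P.int p z
  let LK : Option S → Matrix (Fin N) (Fin N) K := fun v => Option.rec 1 L v
  have hLKi : ∀ v i j, IsIntegral ℤ (LK v i j) := fun v i j => by
    rcases v with _ | p
    · show IsIntegral ℤ ((1 : Matrix (Fin N) (Fin N) K) i j)
      rw [Matrix.one_apply]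
      split_ifs
      · exact isIntegral_one
      · exact isIntegral_zero
    · exact (hO p i j).1
  have hLKd : ∀ v, (LK v).det ≠ 0 := fun v => by
    rcases v with _ | p
    · show (1 : Matrix (Fin N) (Fin N) K).det ≠ 0
      simp
    · exact hL p
  have hreal : ∀ (G : Matrix (Fin N) (Fin N) ℤ) i j,
      ab none ((LK none * G.map (Int.castRingHom K)) i j) = |(G i j : ℝ)| := fun G i j => by
    rw [← plAbs_none_int (S := S) (hS := hS), ← hab]
    congr 1
    show ((1 : Matrix (Fin N) (Fin N) K) * G.map (Int.castRingHom K)) i j = _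
    simp
  set γ : ℝ := δ / (N ^ 2 + 1) with hγ
  have hγ0 : 0 < γ := by positivity
  have hγδ : δ = N ^ 2 * γ + γ := by rw [hγ]; field_simp
  have hev : ∀ c : ℝ, ∀ᶠ k in U, c < γ * q k := fun c =>
    (hq.const_mul_atTop hγ0).eventually_gt_atTop c
  have h1 := (h.and (hev B)).mono fun k hk =>
    hstat (A * q k) (γ * q k) (u k) (x k) hk.1.1 hk.2 (by
      have := hk.1.2.1
      rw [hγδ] at this
      nlinarith [hk.2]) hk.1.2.2.1 hk.1.2.2.2
  obtain ⟨T, hT⟩ := Ultrafilter.eventually_exists_iff.1 h1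
  have hTne : T.Nonempty := hT.exists.choose_spec.1
  obtain ⟨G, hG⟩ := (hT.mono fun k hk => hk.2).choice
  obtain ⟨t, ht⟩ := hG.choice
  obtain ⟨w, hw⟩ := ht.choice
  obtain ⟨T', hT'⟩ := Ultrafilter.eventually_exists_iff.1 hw
  have hc : T'.card = T.card := hT'.exists.choose_spec.1
  obtain ⟨c, hcs⟩ := sum_sum_mem N T.card
  let T0 : PS N T.card := ⟨T, rfl⟩
  let J0 : PS N T.card := ⟨T', hc⟩
  set lf : ℝ := log (T.card.factorial) with hlf
  have hlf0 : 0 ≤ lf := log_nonneg (by exact_mod_cast T.card.factorial_pos)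
  let uu : ℕ → Option S → PS N T.card → ℝ := fun k v J =>
    ∑ i ∈ J.1, w k v i + lf - if v = none ∧ J = J0 then γ * q k else 0
  have hN0 : (0 : ℝ) ≤ N := Nat.cast_nonneg _
  obtain ⟨z, hz, hrel⟩ := penultimateK ab (fun v z => (hab v z).trans_le (plAbs_le v z))
    (fun z hz => by simpa only [hab] using one_le_prod_plAbs (hS := hS) z hz)
    (fun v => cmp T.card (LK v)) (fun v J I => IsIntegral.det fun a b => hLKi v _ _)
    (fun v => det_cmp_ne_zeroK (hLKd v)) T0 U q hq
    (N * B * A + 2 * γ) (γ / 2) (by positivity) (fun k => cmp T.card (G k)) uu (by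
      filter_upwards [hT', hev (N * B * B + lf), hev 0, hev (2 * (c * B +
        (Fintype.card (Option S) * (Fintype.card (PS N T.card) * lf))))] with k hk e1 e0 e2
      obtain ⟨-, hdet, -, -, hwb, hws, hall0, hall1, hgap⟩ := hk
      have hall : ∀ v i j, ab v ((LK v * (G k).map (Int.castRingHom K)) i j) ≤ exp (w k v i) :=
        fun v i j => by
          rcases v with _ | p
          · rw [hreal]; exact hall0 i j
          · exact hall1 p i j
      refine ⟨det_cmp_ne_zero hdet, fun v J => ?_, ?_, fun v J I hI => ?_⟩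
      · have b1 : |∑ i ∈ J.1, w k v i| ≤ N * (B * (A * q k + B)) := by
          refine (Finset.abs_sum_le_sum_abs _ _).trans ?_
          refine (Finset.sum_le_sum_of_subset_of_nonneg (Finset.subset_univ _)
            fun i _ _ => abs_nonneg _).trans ?_
          refine (Finset.sum_le_card_nsmul _ _ _ fun i _ => hwb v i).trans ?_
          simp
        rw [abs_le] at b1 ⊢
        simp only [uu]
        split_ifs <;> constructor <;> nlinarith [b1.1, b1.2]
      · have b1 : ∑ v, ∑ J, uu k v J = c * ∑ v, ∑ i, w k v i +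
            Fintype.card (Option S) * (Fintype.card (PS N T.card) * lf) - γ * q k := by
          simp only [uu, Finset.sum_sub_distrib, Finset.sum_add_distrib, hcs, Finset.sum_const,
            Finset.card_univ, nsmul_eq_mul, ← Finset.mul_sum]
          congr 1
          rw [Fintype.sum_option]
          simp
        rw [b1]
        have b2 : (c : ℝ) * ∑ v, ∑ i, w k v i ≤ c * B :=
          mul_le_mul_of_nonneg_left hws (Nat.cast_nonneg _)
        linarith
      · rw [← cmp_mapK, ← cmp_mul]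
        by_cases hv : v = none ∧ J = J0
        · obtain ⟨rfl, rfl⟩ := hv
          simp only [uu, and_self, if_true]
          exact abv_cmp_le_gapK _ _ _ (hall none) _ J0 T0 I
            (fun i hi j hj => by rw [hreal]; exact hgap i hi j hj) hI
        · simp only [uu, hv, if_false, sub_zero]
          exact abv_cmp_leK _ _ _ (hall v) J I)
  obtain ⟨ζ, hζ, hform⟩ := exists_form (Finset.card_pos.2 hTne) T0 z hz
  refine ⟨ζ, hζ, ?_⟩
  filter_upwards [hT', hrel] with k hk hr
  obtain ⟨-, hdet, hx, ht0, -⟩ := hk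
  rw [hx]
  exact hform (G k) (t k) hdet hr ht0

theorem stSub : StSub := by
  intro K _ _ S P U Q ι _ _ x F δ hQ hδ ⟨L, A, u0, u, hO, hL, _, h⟩ hI
  let e := (Fintype.equivFin ι).symm
  obtain ⟨ζ, hζ, hrel⟩ := subspace_fin P (Fintype.card ι) (fun p => (L p).submatrix e e)
    (fun p i j => hO p _ _) (fun p => by rw [Matrix.det_submatrix_equiv_self]; exact hL p)
    U Q hQ A δ hδ (fun k i => x k (e i))
    (fun k v i => Option.rec (u0 k (e i)) (fun p => u k p (e i)) v) (by
      filter_upwards [h] with k hk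
      obtain ⟨h1, h2, h3, h4, h5⟩ := hk
      refine ⟨fun v i => ?_, ?_, fun i => h4 _, fun p i => ?_⟩
      · rcases v with _ | p
        · exact h1 _
        · exact h2 p _
      · rw [Fintype.sum_option]
        simp only [Equiv.sum_comp e (u0 k), fun p => Equiv.sum_comp e (u k p)]
        exact h3
      · refine le_of_eq_of_le ?_ (h5 p (e i))
        congr 1
        exact Equiv.sum_comp e fun j => L p (e i) j * (x k j : K))
  obtain ⟨b, hb⟩ := IsLocalization.exist_integer_multiples_of_finite (nonZeroDivisors ℤ) ζ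
  choose c hc using hb
  have hb0 : ((b : ℤ) : ℚ) ≠ 0 := by exact_mod_cast nonZeroDivisors.coe_ne_zero b
  have hc' : ∀ i, (c i : ℚ) = (b : ℤ) * ζ i := fun i => by simpa using hc i
  have h0 := hI (fun i => c (e.symm i)) (by
    filter_upwards [hrel] with k hk
    have h1 : ∑ i, (c i : ℚ) * x k (e i) = 0 := by
      simp only [hc', mul_assoc, ← Finset.mul_sum]
      rw [show ∑ i, ζ i * (x k (e i) : ℚ) = 0 from hk, mul_zero]
    rw [← Equiv.sum_comp e]
    simp only [Equiv.symm_apply_apply]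
    exact_mod_cast h1)
  refine hζ (funext fun i => ?_)
  have h1 : c i = 0 := by simpa using congrFun h0 (e i)
  have h2 := hc' i
  rw [h1, Int.cast_zero] at h2
  exact (mul_eq_zero.1 h2.symm).resolve_left hb0

end Pool.Agent.Lib.MP_56f651_co.SP
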